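import Pool.Agent.J4H80.IG.Rel

set_option autoImplicit false

/-!
# Bounds for the numbers of exceptional classes
-/

namespace Pool.Agent.J4H80.IG

open PowerSeries Pool.Agent.TH693.PP Pool.Agent.H397R2.PP Pool.Agent.TH693.QQ

/-- the classes modulo `2 ^ j` on which `Q` holds up to `x` -/
noncomputable def Bd (Q : ℕ → Prop) (x j : ℕ) : Finset ℕ := by
  classical exact (Finset.range (2 ^ j)).filter fun r => ∀ n ≤ x, n % 2 ^ j = r → Q n

theorem mem_Bd {Q : ℕ → Prop} {x j r : ℕ} :
    r ∈ Bd Q x j ↔ r < 2 ^ j ∧ ∀ n ≤ x, n % 2 ^ j = r → Q n := by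
  classical
  unfold Bd
  rw [Finset.mem_filter, Finset.mem_range]

theorem Bd_double (Q : ℕ → Prop) (x j : ℕ) : 2 * (Bd Q x j).card ≤ (Bd Q x (j + 1)).card := by
  classical
  have h1 : (Bd Q x j).card + ((Bd Q x j).map (addRightEmbedding (2 ^ j))).card ≤
      (Bd Q x (j + 1)).card := by
    rw [← Finset.card_union_of_disjoint]
    · apply Finset.card_le_card
      intro r hr
      rw [Finset.mem_union, Finset.mem_map] at hr
      rw [mem_Bd]
      have key : ∀ r₀ ∈ Bd Q x j, ∀ e, e ≤ 1 → r₀ + e * 2 ^ j < 2 ^ (j + 1) ∧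
          ∀ n ≤ x, n % 2 ^ (j + 1) = r₀ + e * 2 ^ j → Q n := by
        intro r₀ h0 e he
        rw [mem_Bd] at h0
        obtain ⟨h2, h3⟩ := h0
        refine ⟨?_, fun n hn h4 => h3 n hn ?_⟩
        · have : e * 2 ^ j ≤ 1 * 2 ^ j := Nat.mul_le_mul_right _ he
          rw [pow_succ]
          omega
        · have h5 : n % 2 ^ (j + 1) % 2 ^ j = n % 2 ^ j := Nat.mod_mod_of_dvd _ (pow_dvd_pow 2 (by omega))
          rw [← h5, h4, Nat.add_mul_mod_self_right, Nat.mod_eq_of_lt h2]
      rcases hr with hr | ⟨r₀, h0, rfl⟩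
      · have := key r hr 0 (by norm_num)
        simpa using this
      · have := key r₀ h0 1 le_rfl
        rw [one_mul] at this
        exact this
    · rw [Finset.disjoint_left]
      intro r hr hr'
      rw [Finset.mem_map] at hr'
      obtain ⟨r₀, _, rfl⟩ := hr'
      rw [mem_Bd] at hr
      have := hr.1
      rw [addRightEmbedding_apply] at this
      omega
  rw [Finset.card_map] at h1
  omega

theorem dvd_proj {M r x : ℕ} (h : ∀ n ≤ x, n % M = r % M → Even (Fintype.card (Nat.Partition n))) :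
    (X : S) ^ (x + 1) ∣ proj M r P := by
  rw [X_pow_dvd_iff]
  intro n hn
  rw [QE1.coeff_proj]
  split_ifs with h1
  · unfold P
    rw [coeff_mk]
    exact (ZMod.natCast_eq_zero_iff_even).2 (h n (by omega) h1)
  · rfl

theorem dvd_expand {f : S} {N : ℕ} (h : (X : S) ^ N ∣ f) :
    (X : S) ^ (8 * N) ∣ expand 8 (by norm_num) f := by
  obtain ⟨g, rfl⟩ := h
  rw [map_mul, map_pow, expand_X, ← pow_mul]
  exact Dvd.intro _ rfl

/-- most classes contain an odd value, modulo `4 ^ k` -/
theorem odd_four (k x : ℕ) :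
    9 * ((Bd (fun n => Even (Fintype.card (Nat.Partition n))) x (2 * k)).card * (x + 1)) ≤ 2 * 64 ^ k := by
  classical
  set B := Bd (fun n => Even (Fintype.card (Nat.Partition n))) x (2 * k) with hB
  have h4 : (2 : ℕ) ^ (2 * k) = 4 ^ k := by rw [pow_mul]; norm_num
  have hv := valence (2 * k) (u_mem k (ex k)) (u_ne k) (u_wt k _) (U k (ex k)) (fun t => rfl)
    (fun t => if rr k t ∈ B then 8 * (x + 1) else 0) (by
      intro t ht
      split_ifs with h
      · have h1 := U_rr k 0 t (Dvd.intro 0 rfl)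
        rw [mul_zero, add_zero, add_zero] at h1
        rw [h1]
        unfold Cc
        apply Dvd.dvd.mul_right
        apply Dvd.dvd.mul_left
        apply dvd_expand
        apply dvd_proj
        intro n hn hnr
        rw [hB, mem_Bd] at h
        refine h.2 n hn ?_
        rw [hnr, Nat.mod_eq_of_lt h.1]
      · rw [pow_zero]
        exact one_dvd _)
  rw [h4, rr_sum k (fun r => if r ∈ B then 8 * (x + 1) else 0), ← Finset.sum_filter,
    Finset.sum_const, smul_eq_mul] at hv
  have hBf : (Finset.range (4 ^ k)).filter (fun r => r ∈ B) = B := by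
    ext r
    rw [Finset.mem_filter, Finset.mem_range, hB, mem_Bd, h4]
    tauto
  rw [hBf] at hv
  have h9 := nine_ww k
  have e1 : (4 : ℕ) ^ (2 * k + 2) = 16 * 4 ^ k * 4 ^ k := by
    rw [pow_add, two_mul, pow_add]; ring
  have e2 : (64 : ℕ) ^ k = 4 ^ k * 4 ^ k * 4 ^ k := by
    rw [← mul_pow, ← mul_pow]
    norm_num
  rw [e1] at h9
  rw [e2]
  have h10 : 8 * (9 * (B.card * (x + 1))) ≤ 8 * (2 * (4 ^ k * 4 ^ k * 4 ^ k)) := by
    calc 8 * (9 * (B.card * (x + 1))) = 9 * (B.card * (8 * (x + 1))) := by ring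
      _ ≤ 9 * (4 ^ k * ww k) := Nat.mul_le_mul_left _ hv
      _ = 4 ^ k * (9 * ww k) := by ring
      _ ≤ 4 ^ k * (16 * 4 ^ k * 4 ^ k) := Nat.mul_le_mul_left _ h9
      _ = _ := by ring
  omega

theorem odd_bound (j x : ℕ) :
    9 * ((Bd (fun n => Even (Fintype.card (Nat.Partition n))) x j).card * (x + 1)) ≤ 8 * 8 ^ j := by
  rcases Nat.even_or_odd' j with ⟨k, rfl | rfl⟩
  · have h := odd_four k x
    have e : (8 : ℕ) ^ (2 * k) = 64 ^ k := by rw [pow_mul]; norm_num
    rw [e]
    have : 0 < 64 ^ k := by positivity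
    omega
  · have h := odd_four (k + 1) x
    have h2 := Bd_double (fun n => Even (Fintype.card (Nat.Partition n))) x (2 * k + 1)
    have e : (8 : ℕ) ^ (2 * k + 1) = 8 * 64 ^ k := by
      rw [pow_succ, pow_mul]; norm_num; ring
    have e2 : 2 * (k + 1) = 2 * k + 1 + 1 := by ring
    rw [e2, pow_succ] at h
    rw [e]
    have h3 := Nat.mul_le_mul_right (x + 1) h2
    rw [mul_assoc] at h3
    omega

end Pool.Agent.J4H80.IG
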