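import Pool.Agent.J4H80.IG.Bnd

set_option autoImplicit false

/-!
# Even values in most classes
-/

namespace Pool.Agent.J4H80.IG

open PowerSeries Pool.Agent.TH693.PP Pool.Agent.H397R2.PP Pool.Agent.TH693.QQ

/-- the quadratic expression in the components -/
noncomputable def W4 (k r : ℕ) : S :=
  Cc (k + 1) r * Cc (k + 1) (r + 3 * 4 ^ k) + Cc (k + 1) (r + 4 ^ k) * Cc (k + 1) (r + 2 * 4 ^ k)

theorem four_two (k : ℕ) : (2 : ℕ) ^ (2 * k) = 4 ^ k := by rw [pow_mul]; norm_num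

theorem four_two' (k : ℕ) : (2 : ℕ) ^ (2 * (k + 1)) = 4 * 4 ^ k := by
  rw [four_two, pow_succ, mul_comm]

theorem Cc_shift (k r : ℕ) : Cc (k + 1) (r + 4 * 4 ^ k) = Cc (k + 1) r := by
  apply Cc_congr
  rw [four_two', Nat.add_mod_right]

theorem W4_shift (k r : ℕ) : W4 k (r + 2 * 4 ^ k) = W4 k r := by
  unfold W4
  have e1 : r + 2 * 4 ^ k + 3 * 4 ^ k = r + 4 ^ k + 4 * 4 ^ k := by ring
  have e2 : r + 2 * 4 ^ k + 4 ^ k = r + 3 * 4 ^ k := by ring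
  have e3 : r + 2 * 4 ^ k + 2 * 4 ^ k = r + 4 * 4 ^ k := by ring
  rw [e1, e2, e3, Cc_shift, Cc_shift]
  ring

theorem W4_mod (k r : ℕ) : W4 k r = W4 k (r % (2 * 4 ^ k)) := by
  have h : ∀ q s, W4 k (s + 2 * 4 ^ k * q) = W4 k s := by
    intro q
    induction q with
    | zero => intro s; rw [mul_zero, add_zero]
    | succ q ih =>
      intro s
      rw [mul_add, mul_one, ← add_assoc, W4_shift, ih]
  conv_lhs => rw [← Nat.mod_add_div r (2 * 4 ^ k)]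
  exact h _ _

/-- the geometric series -/
noncomputable def Gm (M : ℕ) : S := PowerSeries.mk fun n => if M ∣ n then 1 else 0

theorem proj_odd {M r x : ℕ} (hr : r < M)
    (h : ∀ n ≤ x, n % M = r → ¬ Even (Fintype.card (Nat.Partition n))) :
    ∃ f : S, proj M r P = X ^ r * Gm M + X ^ (x + 1) * f := by
  have h1 : (X : S) ^ (x + 1) ∣ proj M r P - X ^ r * Gm M := by
    rw [X_pow_dvd_iff]
    intro n hn
    rw [map_sub, QE1.coeff_proj, coeff_X_pow_mul', Nat.mod_eq_of_lt hr]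
    unfold Gm P
    rw [coeff_mk]
    by_cases h2 : n % M = r
    · have h3 : r ≤ n := h2 ▸ Nat.mod_le n M
      have h4 : M ∣ n - r := by
        rw [← h2]
        exact Nat.dvd_sub_mod n
      rw [if_pos h2, if_pos h3, coeff_mk, if_pos h4]
      have h5 := h n (by omega) h2
      rw [Nat.not_even_iff_odd] at h5
      rw [(ZMod.natCast_eq_one_iff_odd).2 h5, sub_self]
    · rw [if_neg h2]
      by_cases h3 : r ≤ n
      · rw [if_pos h3, coeff_mk, if_neg, sub_self]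
        rintro ⟨c, hc⟩
        apply h2
        have : n = r + M * c := by omega
        rw [this, Nat.add_mul_mod_self_left, Nat.mod_eq_of_lt hr]
      · rw [if_neg h3, sub_self]
  obtain ⟨f, hf⟩ := h1
  exact ⟨f, by linear_combination hf⟩

theorem W4_dvd {k r x : ℕ} (hr : r < 4 ^ k)
    (h : ∀ n ≤ x, n % 4 ^ k = r → ¬ Even (Fintype.card (Nat.Partition n))) :
    (X : S) ^ (8 * (x + 1)) ∣ W4 k r := by
  have hx : ∀ i, i ≤ 3 → ∃ f : S,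
      proj (4 * 4 ^ k) (r + i * 4 ^ k) P = X ^ (r + i * 4 ^ k) * Gm (4 * 4 ^ k) + X ^ (x + 1) * f := by
    intro i hi
    apply proj_odd
    · have : i * 4 ^ k ≤ 3 * 4 ^ k := Nat.mul_le_mul_right _ hi
      omega
    · intro n hn hnr
      apply h n hn
      have h5 : n % (4 * 4 ^ k) % 4 ^ k = n % 4 ^ k := Nat.mod_mod_of_dvd _ (Dvd.intro_left 4 rfl)
      rw [← h5, hnr, Nat.add_mul_mod_self_right, Nat.mod_eq_of_lt hr]
  obtain ⟨f0, h0⟩ := hx 0 (by norm_num)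
  obtain ⟨f1, h1⟩ := hx 1 (by norm_num)
  obtain ⟨f2, h2⟩ := hx 2 (by norm_num)
  obtain ⟨f3, h3⟩ := hx 3 (by norm_num)
  rw [zero_mul, add_zero] at h0
  rw [one_mul] at h1
  unfold W4 Cc
  rw [four_two' k, h0, h1, h2, h3]
  have h8 : ∀ f : S, expand 8 (by norm_num) f = f ^ 8 := fun f => (pow_eq_expand 3 f).symm
  generalize expand (2 ^ (2 * (k + 1) + 3)) _ E = e
  have hc : ∀ (i : ℕ) (f : S), expand 8 (by norm_num)
      (X ^ (r + i * 4 ^ k) * Gm (4 * 4 ^ k) + X ^ (x + 1) * f) =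
      X ^ (8 * (r + i * 4 ^ k)) * Gm (4 * 4 ^ k) ^ 8 + X ^ (8 * (x + 1)) * f ^ 8 := by
    intro i f
    rw [h8, add_eight, mul_pow, mul_pow, ← pow_mul, ← pow_mul, mul_comm 8 (r + i * 4 ^ k),
      mul_comm 8 (x + 1)]
  have hc0 := hc 0 f0
  have hc1 := hc 1 f1
  rw [zero_mul, add_zero] at hc0
  rw [one_mul] at hc1
  rw [hc0, hc1, hc 2 f2, hc 3 f3]
  have hA : (X : S) ^ (8 * r) * Gm (4 * 4 ^ k) ^ 8 * (X ^ (8 * (r + 3 * 4 ^ k)) * Gm (4 * 4 ^ k) ^ 8) +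
      X ^ (8 * (r + 4 ^ k)) * Gm (4 * 4 ^ k) ^ 8 * (X ^ (8 * (r + 2 * 4 ^ k)) * Gm (4 * 4 ^ k) ^ 8) = 0 := by
    have e1 : (X : S) ^ (8 * (r + 4 ^ k)) * Gm (4 * 4 ^ k) ^ 8 * (X ^ (8 * (r + 2 * 4 ^ k)) * Gm (4 * 4 ^ k) ^ 8) =
        X ^ (8 * r) * Gm (4 * 4 ^ k) ^ 8 * (X ^ (8 * (r + 3 * 4 ^ k)) * Gm (4 * 4 ^ k) ^ 8) := by
      have e2 : 8 * (r + 4 ^ k) + 8 * (r + 2 * 4 ^ k) = 8 * r + 8 * (r + 3 * 4 ^ k) := by ring
      calc _ = (X : S) ^ (8 * (r + 4 ^ k) + 8 * (r + 2 * 4 ^ k)) * Gm (4 * 4 ^ k) ^ 8 * Gm (4 * 4 ^ k) ^ 8 := by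
            rw [pow_add]; ring
        _ = _ := by rw [e2, pow_add]; ring
    rw [e1]
    exact add_self _
  generalize (X : S) ^ (8 * r) * Gm (4 * 4 ^ k) ^ 8 = a0 at *
  generalize (X : S) ^ (8 * (r + 4 ^ k)) * Gm (4 * 4 ^ k) ^ 8 = a1 at *
  generalize (X : S) ^ (8 * (r + 2 * 4 ^ k)) * Gm (4 * 4 ^ k) ^ 8 = a2 at *
  generalize (X : S) ^ (8 * (r + 3 * 4 ^ k)) * Gm (4 * 4 ^ k) ^ 8 = a3 at *
  generalize (X : S) ^ ex (k + 1) = m
  generalize (X : S) ^ (8 * (x + 1)) = Y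
  refine ⟨m * e * m * e * (a0 * f3 ^ 8 + a3 * f0 ^ 8 + Y * f0 ^ 8 * f3 ^ 8 + a1 * f2 ^ 8 + a2 * f1 ^ 8 +
    Y * f1 ^ 8 * f2 ^ 8), ?_⟩
  linear_combination (m * e * m * e) * hA

theorem Cc_ne_zero : ∀ k : ℕ, Cc k 0 ≠ 0 := by
  intro k h
  apply u_ne k
  apply (lev (2 * k)).van _ (u_mem k (ex k)) ((0 : ℕ) : ℤ)
  unfold u
  have h1 := U_rr k 0 0 (Dvd.intro 0 rfl)
  rw [mul_zero, add_zero] at h1
  rw [h1]
  have h2 : rr k 0 + 0 = 0 := by unfold rr; simp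
  rw [h2, h, map_zero]

theorem Cc_ne (k r : ℕ) (hr : r < 4 ^ k) : Cc k r ≠ 0 := by
  intro h
  obtain ⟨t, _, ht⟩ := rr_surj k (show r ∈ ((Finset.range (4 ^ k) : Finset ℕ) : Set ℕ) by
    rw [Finset.mem_coe, Finset.mem_range]; exact hr)
  apply u_ne k
  apply (lev (2 * k)).van _ (u_mem k (ex k)) ((t : ℕ) : ℤ)
  unfold u
  have h1 := U_rr k 0 t (Dvd.intro 0 rfl)
  rw [mul_zero, add_zero, add_zero] at h1
  rw [h1, ht, h, map_zero]


/-- distinct components have disjoint supports -/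
theorem Cc_eq_zero (k r r' : ℕ) (hne : r % 4 ^ k ≠ r' % 4 ^ k) (h : Cc k r = Cc k r') : Cc k r = 0 := by
  ext N
  rw [map_zero]
  by_contra h0
  have h1 := h0
  rw [← Cc_eq, coeff_comp] at h0
  rw [h, ← Cc_eq, coeff_comp] at h1
  have h2 : ((2 ^ (2 * k + 3) : ℕ) : ℤ) ∣ (N : ℤ) - ((8 * r + ex k : ℕ) : ℤ) := by
    by_contra hn
    exact h0 (if_neg hn)
  have h3 : ((2 ^ (2 * k + 3) : ℕ) : ℤ) ∣ (N : ℤ) - ((8 * r' + ex k : ℕ) : ℤ) := by
    by_contra hn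
    exact h1 (if_neg hn)
  apply hne
  obtain ⟨c, hc⟩ := h2
  obtain ⟨d, hd⟩ := h3
  have e : ((2 ^ (2 * k + 3) : ℕ) : ℤ) = 8 * 4 ^ k := by
    push_cast
    rw [pow_add, pow_mul]
    norm_num
    ring
  rw [e] at hc hd
  push_cast at hc hd
  have h4 : ((4 ^ k : ℕ) : ℤ) ∣ (r' : ℤ) - r := by
    refine ⟨c - d, ?_⟩
    push_cast
    have : (8 : ℤ) * (r' - r) = 8 * (4 ^ k * (c - d)) := by linear_combination hc - hd
    linarith
  exact Nat.modEq_iff_dvd.2 h4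

/-- the element of the algebra -/
noncomputable def wt (k : ℕ) : ℤ → L :=
  u (k + 1) ((ex (k + 1) + 8 * (0 * 4 ^ k) : ℕ) : ℤ) * u (k + 1) ((ex (k + 1) + 8 * (3 * 4 ^ k) : ℕ) : ℤ) +
  u (k + 1) ((ex (k + 1) + 8 * (1 * 4 ^ k) : ℕ) : ℤ) * u (k + 1) ((ex (k + 1) + 8 * (2 * 4 ^ k) : ℕ) : ℤ)

noncomputable def wtS (k : ℕ) : ℤ → S := fun t =>
  U (k + 1) ((ex (k + 1) + 8 * (0 * 4 ^ k) : ℕ) : ℤ) t * U (k + 1) ((ex (k + 1) + 8 * (3 * 4 ^ k) : ℕ) : ℤ) t +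
  U (k + 1) ((ex (k + 1) + 8 * (1 * 4 ^ k) : ℕ) : ℤ) t * U (k + 1) ((ex (k + 1) + 8 * (2 * 4 ^ k) : ℕ) : ℤ) t

theorem wt_eq (k : ℕ) (t : ℤ) : wt k t = algebraMap S L (wtS k t) := by
  unfold wt wtS u
  rw [map_add, map_mul, map_mul]
  rfl

theorem wtS_rr (k t : ℕ) : wtS k (t : ℤ) = W4 k (rr (k + 1) t) := by
  have hd : ∀ i, 4 ^ (k + 1) ∣ 8 * (i * 4 ^ k) := fun i => ⟨2 * i, by rw [pow_succ]; ring⟩
  unfold wtS W4
  rw [U_rr _ _ _ (hd 0), U_rr _ _ _ (hd 1), U_rr _ _ _ (hd 2), U_rr _ _ _ (hd 3)]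
  rw [zero_mul, one_mul, add_zero]

theorem wt_mem (k : ℕ) : wt k ∈ V (2 * (k + 1) + 2) :=
  (V _).add_mem ((V _).mul_mem (u_mem _ _) (u_mem _ _)) ((V _).mul_mem (u_mem _ _) (u_mem _ _))

theorem wt_wt (k : ℕ) (t : ℤ) : Wt (ww (k + 1) + ww (k + 1)) (wt k t) := by
  unfold wt
  exact Wt.add (Wt.mul (u_wt _ _ _) (u_wt _ _ _)) (Wt.mul (u_wt _ _ _) (u_wt _ _ _))

theorem wt_ne (k : ℕ) : wt k ≠ 0 := by
  intro h
  have hp : 0 < 4 ^ k := by positivity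
  have hz : ∀ r < 4 ^ (k + 1), W4 k r = 0 := by
    intro r hr
    obtain ⟨t, _, ht⟩ := rr_surj (k + 1) (show r ∈ ((Finset.range (4 ^ (k + 1)) : Finset ℕ) : Set ℕ) by
      rw [Finset.mem_coe, Finset.mem_range]; exact hr)
    have h1 := congrFun h ((t : ℕ) : ℤ)
    rw [wt_eq, Pi.zero_apply, map_eq_zero_iff _ inj, wtS_rr, ht] at h1
    exact h1
  have h0 := hz 0 (by positivity)
  have h1 := hz (4 ^ k) (by rw [pow_succ]; omega)
  unfold W4 at h0 h1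
  have e1 : 4 ^ k + 3 * 4 ^ k = 0 + 4 * 4 ^ k := by ring
  have e2 : 4 ^ k + 4 ^ k = 2 * 4 ^ k := by ring
  have e3 : 4 ^ k + 2 * 4 ^ k = 3 * 4 ^ k := by ring
  rw [e1, e2, e3, Cc_shift] at h1
  rw [zero_add, zero_add, zero_add] at h0
  have h2 : (Cc (k + 1) 0 + Cc (k + 1) (2 * 4 ^ k)) * (Cc (k + 1) (4 ^ k) + Cc (k + 1) (3 * 4 ^ k)) = 0 := by
    linear_combination h0 + h1
  have e4 : (4 : ℕ) ^ (k + 1) = 4 * 4 ^ k := by rw [pow_succ, mul_comm]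
  rcases mul_eq_zero.1 h2 with h3 | h3
  · have h4 := eq_of_add h3
    apply Cc_ne (k + 1) 0 (by positivity)
    apply Cc_eq_zero _ _ _ _ h4
    rw [e4, Nat.zero_mod, Nat.mod_eq_of_lt (by omega)]
    omega
  · have h4 := eq_of_add h3
    apply Cc_ne (k + 1) (4 ^ k) (by omega)
    apply Cc_eq_zero _ _ _ _ h4
    rw [e4, Nat.mod_eq_of_lt (by omega), Nat.mod_eq_of_lt (by omega)]
    omega

/-- most classes contain an even value, modulo `4 ^ k` -/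
theorem even_four (k x : ℕ) :
    9 * ((Bd (fun n => ¬ Even (Fintype.card (Nat.Partition n))) x (2 * k)).card * (x + 1)) ≤
      128 * 64 ^ k := by
  classical
  set B := Bd (fun n => ¬ Even (Fintype.card (Nat.Partition n))) x (2 * k) with hB
  have hv := valence (2 * (k + 1)) (wt_mem k) (wt_ne k) (wt_wt k) (wtS k) (wt_eq k)
    (fun t => if rr (k + 1) t % (2 * 4 ^ k) ∈ B then 8 * (x + 1) else 0) (by
      intro t ht
      split_ifs with h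
      · rw [wtS_rr, W4_mod]
        rw [hB, mem_Bd, four_two] at h
        exact W4_dvd h.1 h.2
      · rw [pow_zero]
        exact one_dvd _)
  rw [four_two, rr_sum (k + 1) (fun r => if r % (2 * 4 ^ k) ∈ B then 8 * (x + 1) else 0)] at hv
  have hp : 0 < 4 ^ k := by positivity
  have e4 : (4 : ℕ) ^ (k + 1) = 2 * 4 ^ k + 2 * 4 ^ k := by rw [pow_succ]; ring
  have hs : ∑ r ∈ Finset.range (2 * 4 ^ k), (if r % (2 * 4 ^ k) ∈ B then 8 * (x + 1) else 0) =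
      B.card * (8 * (x + 1)) := by
    rw [← Finset.sum_filter, Finset.sum_const, smul_eq_mul]
    congr 2
    ext r
    rw [Finset.mem_filter, Finset.mem_range, hB, mem_Bd, mem_Bd, four_two]
    constructor
    · rintro ⟨h1, h2⟩
      rwa [Nat.mod_eq_of_lt h1] at h2
    · intro h2
      have h3 : r < 2 * 4 ^ k := by omega
      refine ⟨h3, ?_⟩
      rwa [Nat.mod_eq_of_lt h3]
  have hs2 : ∑ r ∈ Finset.range (2 * 4 ^ k), (if (2 * 4 ^ k + r) % (2 * 4 ^ k) ∈ B then 8 * (x + 1) else 0) =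
      B.card * (8 * (x + 1)) := by
    rw [← hs]
    refine Finset.sum_congr rfl fun r _ => ?_
    rw [Nat.add_mod_left]
  rw [e4, Finset.sum_range_add, hs, hs2, ← e4] at hv
  have h9 := nine_ww (k + 1)
  have e1 : (4 : ℕ) ^ (2 * (k + 1) + 2) = 256 * 4 ^ k * 4 ^ k := by
    have : 2 * (k + 1) + 2 = 4 + (k + k) := by ring
    rw [this, pow_add, pow_add]; ring
  have e2 : (64 : ℕ) ^ k = 4 ^ k * 4 ^ k * 4 ^ k := by
    rw [← mul_pow, ← mul_pow]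
    norm_num
  rw [e1] at h9
  rw [e2]
  have h10 : 16 * (9 * (B.card * (x + 1))) ≤ 16 * (128 * (4 ^ k * 4 ^ k * 4 ^ k)) := by
    calc 16 * (9 * (B.card * (x + 1))) = 9 * (B.card * (8 * (x + 1)) + B.card * (8 * (x + 1))) := by ring
      _ ≤ 9 * (4 ^ (k + 1) * (ww (k + 1) + ww (k + 1))) := Nat.mul_le_mul_left _ hv
      _ = 8 * 4 ^ k * (9 * ww (k + 1)) := by rw [pow_succ]; ring
      _ ≤ 8 * 4 ^ k * (256 * 4 ^ k * 4 ^ k) := Nat.mul_le_mul_left _ h9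
      _ = _ := by ring
  omega

theorem even_bound (j x : ℕ) :
    9 * ((Bd (fun n => ¬ Even (Fintype.card (Nat.Partition n))) x j).card * (x + 1)) ≤ 512 * 8 ^ j := by
  rcases Nat.even_or_odd' j with ⟨k, rfl | rfl⟩
  · have h := even_four k x
    have e : (8 : ℕ) ^ (2 * k) = 64 ^ k := by rw [pow_mul]; norm_num
    rw [e]
    have : 0 < 64 ^ k := by positivity
    omega
  · have h := even_four (k + 1) x
    have h2 := Bd_double (fun n => ¬ Even (Fintype.card (Nat.Partition n))) x (2 * k + 1)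
    have e : (8 : ℕ) ^ (2 * k + 1) = 8 * 64 ^ k := by
      rw [pow_succ, pow_mul]; norm_num; ring
    have e2 : 2 * (k + 1) = 2 * k + 1 + 1 := by ring
    rw [e2, pow_succ] at h
    rw [e]
    have h3 := Nat.mul_le_mul_right (x + 1) h2
    rw [mul_assoc] at h3
    omega

end Pool.Agent.J4H80.IG
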