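import Pool.Agent.J4H80.IG.Bnd2

set_option autoImplicit false

/-!
# Classes with few odd or few even values
-/

namespace Pool.Agent.J4H80.IG

/-- the classes modulo `2 ^ j` with fewer than `t` values up to `x` for which `Q` fails -/
noncomputable def Fw (Q : ℕ → Prop) (x j t : ℕ) : Finset ℕ := by
  classical exact (Finset.range (2 ^ j)).filter fun r =>
    ((Finset.range (x + 1)).filter fun n => n % 2 ^ j = r ∧ ¬ Q n).card < t

open Classical in
theorem mem_Fw {Q : ℕ → Prop} {x j t r : ℕ} :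
    r ∈ Fw Q x j t ↔ r < 2 ^ j ∧
      ((Finset.range (x + 1)).filter fun n => n % 2 ^ j = r ∧ ¬ Q n).card < t := by
  unfold Fw
  rw [Finset.mem_filter, Finset.mem_range]

open Classical in
theorem Fw_le (Q : ℕ → Prop) (x j t i : ℕ) (hi : t ≤ 2 ^ i) :
    (Fw Q x j t).card * 2 ^ i ≤ (Bd Q x (i + 1 + j)).card := by
  have h1 : ∀ r ∈ Fw Q x j t, 2 ^ i ≤
      ((Finset.range (2 ^ (i + 1))).filter fun s => r + 2 ^ j * s ∈ Bd Q x (i + 1 + j)).card := by
    intro r hr
    rw [mem_Fw] at hr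
    obtain ⟨hr1, hr2⟩ := hr
    have h2 := Finset.card_filter_add_card_filter_not (s := Finset.range (2 ^ (i + 1)))
      (p := fun s => r + 2 ^ j * s ∈ Bd Q x (i + 1 + j))
    rw [Finset.card_range] at h2
    have h3 : ((Finset.range (2 ^ (i + 1))).filter fun s => ¬ (r + 2 ^ j * s ∈ Bd Q x (i + 1 + j))).card ≤
        ((Finset.range (x + 1)).filter fun n => n % 2 ^ j = r ∧ ¬ Q n).card := by
      have h4 : ∀ s ∈ (Finset.range (2 ^ (i + 1))).filter fun s => ¬ (r + 2 ^ j * s ∈ Bd Q x (i + 1 + j)),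
          ∃ n, n ≤ x ∧ n % 2 ^ (i + 1 + j) = r + 2 ^ j * s ∧ ¬ Q n := by
        intro s hs
        rw [Finset.mem_filter, Finset.mem_range, mem_Bd] at hs
        obtain ⟨hs1, hs2⟩ := hs
        by_contra hno
        apply hs2
        refine ⟨?_, fun n hn hns => ?_⟩
        · have h5 : 2 ^ j * (s + 1) ≤ 2 ^ j * 2 ^ (i + 1) := Nat.mul_le_mul_left _ hs1
          have e : (2 : ℕ) ^ (i + 1 + j) = 2 ^ j * 2 ^ (i + 1) := by rw [pow_add, mul_comm]
          rw [e]
          rw [mul_add, mul_one] at h5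
          omega
        · by_contra hq
          exact hno ⟨n, hn, hns, hq⟩
      choose! g hg using h4
      apply Finset.card_le_card_of_injOn g
      · intro s hs
        rw [Finset.mem_coe] at hs
        obtain ⟨h5, h6, h7⟩ := hg s hs
        rw [Finset.mem_coe, Finset.mem_filter, Finset.mem_range]
        refine ⟨by omega, ?_, h7⟩
        have h8 : g s % 2 ^ (i + 1 + j) % 2 ^ j = g s % 2 ^ j :=
          Nat.mod_mod_of_dvd _ (pow_dvd_pow 2 (by omega))
        rw [← h8, h6, Nat.add_mul_mod_self_left, Nat.mod_eq_of_lt hr1]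
      · intro s hs s' hs' hss
        rw [Finset.mem_coe] at hs hs'
        have h5 := (hg s hs).2.1
        have h6 := (hg s' hs').2.1
        rw [hss, h6] at h5
        have hp : 0 < 2 ^ j := by positivity
        exact (Nat.eq_of_mul_eq_mul_left hp (Nat.add_left_cancel h5)).symm
    have e : (2 : ℕ) ^ (i + 1) = 2 ^ i + 2 ^ i := by rw [pow_succ, mul_two]
    omega
  have h2 : ∑ r ∈ Fw Q x j t,
      ((Finset.range (2 ^ (i + 1))).filter fun s => r + 2 ^ j * s ∈ Bd Q x (i + 1 + j)).card ≤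
      (Bd Q x (i + 1 + j)).card := by
    rw [← Finset.card_sigma]
    apply Finset.card_le_card_of_injOn (fun y : (_ : ℕ) × ℕ => y.1 + 2 ^ j * y.2)
    · rintro ⟨r, s⟩ hy
      rw [Finset.mem_coe, Finset.mem_sigma, Finset.mem_filter] at hy
      exact hy.2.2
    · rintro ⟨r, s⟩ hy ⟨r', s'⟩ hy' he
      rw [Finset.mem_coe, Finset.mem_sigma, mem_Fw] at hy hy'
      simp only at he hy hy'
      have h3 := congrArg (fun z => z % 2 ^ j) he
      rw [Nat.add_mul_mod_self_left, Nat.add_mul_mod_self_left, Nat.mod_eq_of_lt hy.1.1,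
        Nat.mod_eq_of_lt hy'.1.1] at h3
      subst h3
      have hp : 0 < 2 ^ j := by positivity
      have h4 := Nat.eq_of_mul_eq_mul_left hp (Nat.add_left_cancel he)
      rw [h4]
  calc (Fw Q x j t).card * 2 ^ i = ∑ _r ∈ Fw Q x j t, 2 ^ i := by
        rw [Finset.sum_const, smul_eq_mul]
    _ ≤ _ := (Finset.sum_le_sum h1).trans h2

theorem Fw_bound (Q : ℕ → Prop) (c : ℕ) (hc : ∀ j x, 9 * ((Bd Q x j).card * (x + 1)) ≤ c * 8 ^ j)
    (x j t : ℕ) (ht : 1 ≤ t) : 9 * ((Fw Q x j t).card * (x + 1)) ≤ 32 * c * t ^ 2 * 8 ^ j := by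
  obtain ⟨i, hi1, hi2⟩ : ∃ i, t ≤ 2 ^ i ∧ 2 ^ i ≤ 2 * t := by
    refine ⟨Nat.clog 2 t, Nat.le_pow_clog (by norm_num) t, ?_⟩
    rcases Nat.lt_or_ge 1 t with h | h
    · have h1 := Nat.pow_pred_clog_lt_self (b := 2) (by norm_num) h
      have h2 : Nat.clog 2 t ≠ 0 := (Nat.clog_pos (by norm_num) h).ne'
      obtain ⟨e, he⟩ := Nat.exists_eq_succ_of_ne_zero h2
      rw [he] at h1 ⊢
      rw [Nat.pred_succ] at h1
      rw [pow_succ]
      omega
    · have : t = 1 := by omega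
      subst this
      rw [Nat.clog_one_right]
      norm_num
  have h1 := Fw_le Q x j t i hi1
  have h2 := hc (i + 1 + j) x
  have hp : 0 < 2 ^ i := by positivity
  have h3 : 2 ^ i * (9 * ((Fw Q x j t).card * (x + 1))) ≤ 2 ^ i * (32 * c * t ^ 2 * 8 ^ j) := by
    calc 2 ^ i * (9 * ((Fw Q x j t).card * (x + 1))) = 9 * ((Fw Q x j t).card * 2 ^ i * (x + 1)) := by ring
      _ ≤ 9 * ((Bd Q x (i + 1 + j)).card * (x + 1)) :=
        Nat.mul_le_mul_left _ (Nat.mul_le_mul_right _ h1)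
      _ ≤ c * 8 ^ (i + 1 + j) := h2
      _ = 2 ^ i * (8 * c * (2 ^ i) ^ 2 * 8 ^ j) := by
        have e : (8 : ℕ) ^ i = 2 ^ i * (2 ^ i) ^ 2 := by
          have : (8 : ℕ) = 2 * 2 * 2 := by norm_num
          rw [this, mul_pow, mul_pow]
          ring
        rw [pow_add, pow_add, e]
        ring
      _ ≤ 2 ^ i * (8 * c * (2 * t) ^ 2 * 8 ^ j) := by
        apply Nat.mul_le_mul_left
        apply Nat.mul_le_mul_right
        apply Nat.mul_le_mul_left
        exact Nat.pow_le_pow_left hi2 2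
      _ = _ := by ring
  exact Nat.le_of_mul_le_mul_left h3 hp

end Pool.Agent.J4H80.IG
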