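import Pool.Agent.J4H80.IG.Valence2
import Pool.Agent.TH693.QQ.QE1

set_option autoImplicit false

/-!
# The components of the powers of `Db` modulo powers of two
-/

namespace Pool.Agent.J4H80.IG

open PowerSeries Pool.Agent.TH693.PP Pool.Agent.H397R2.PP Pool.Agent.TH693.QQ

/-- the part of `G` with exponents congruent to `s` modulo `M` -/
noncomputable def comp (M : ℕ) (s : ℤ) (G : S) : S :=
  PowerSeries.mk fun N => if (M : ℤ) ∣ (N : ℤ) - s then coeff N G else 0

theorem coeff_comp (M : ℕ) (s : ℤ) (G : S) (N : ℕ) :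
    coeff N (comp M s G) = if (M : ℤ) ∣ (N : ℤ) - s then coeff N G else 0 := coeff_mk _ _

theorem comp_congr {M : ℕ} {s s' : ℤ} (h : (M : ℤ) ∣ s - s') (G : S) : comp M s G = comp M s' G := by
  ext N
  rw [coeff_comp, coeff_comp]
  have : (M : ℤ) ∣ (N : ℤ) - s ↔ (M : ℤ) ∣ (N : ℤ) - s' := by
    have e : (N : ℤ) - s' = N - s + (s - s') := by ring
    rw [e]
    exact (dvd_add_left h).symm
  simp only [this]

theorem comp_sum {ι : Type*} (M : ℕ) (s : ℤ) (I : Finset ι) (f : ι → S) :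
    comp M s (∑ i ∈ I, f i) = ∑ i ∈ I, comp M s (f i) := by
  ext N
  rw [coeff_comp, map_sum, map_sum]
  simp only [coeff_comp]
  split_ifs
  · rfl
  · rw [Finset.sum_const_zero]

theorem comp_eq_proj (M s : ℕ) (G : S) : comp M (s : ℤ) G = proj M s G := by
  ext N
  rw [coeff_comp, QD.coeff_proj]
  have : (M : ℤ) ∣ (N : ℤ) - s ↔ N % M = s % M := by
    rw [← Int.modEq_iff_dvd, Int.natCast_modEq_iff]
    exact ⟨fun h => h.symm, fun h => Nat.ModEq.symm h⟩
  simp only [this]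

theorem comp_mul_supp (M : ℕ) (s a : ℤ) (G H : S)
    (hG : ∀ N, coeff N G ≠ 0 → (M : ℤ) ∣ (N : ℤ) - a) :
    comp M s (G * H) = G * comp M (s - a) H := by
  ext N
  rw [coeff_comp, coeff_mul, coeff_mul]
  have key : ∀ p ∈ Finset.HasAntidiagonal.antidiagonal N,
      coeff p.1 G * coeff p.2 (comp M (s - a) H) =
        if (M : ℤ) ∣ (N : ℤ) - s then coeff p.1 G * coeff p.2 H else 0 := by
    rintro ⟨i, j⟩ hij
    rw [Finset.HasAntidiagonal.mem_antidiagonal] at hij
    simp only at hij ⊢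
    by_cases h0 : coeff i G = 0
    · rw [h0, zero_mul, zero_mul, ite_self]
    · have h1 := hG i h0
      rw [coeff_comp]
      have h2 : (M : ℤ) ∣ (j : ℤ) - (s - a) ↔ (M : ℤ) ∣ (N : ℤ) - s := by
        have e : (N : ℤ) - s = (j - (s - a)) + (i - a) := by
          rw [← hij]
          push_cast
          ring
        rw [e]
        exact (dvd_add_left h1).symm
      simp only [h2]
      split_ifs
      · rfl
      · rw [mul_zero]
  rw [Finset.sum_congr rfl key]
  split_ifs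
  · rfl
  · rw [Finset.sum_const_zero]

theorem comp_four (M : ℕ) (s : ℤ) (G : S) : comp (4 * M) (4 * s) (G ^ 4) = comp M s G ^ 4 := by
  rw [four_eq, four_eq]
  ext N
  rw [coeff_comp, coeff_expand, coeff_expand]
  by_cases h4 : 4 ∣ N
  · obtain ⟨n, rfl⟩ := h4
    rw [if_pos (Dvd.intro _ rfl), if_pos (Dvd.intro _ rfl), Nat.mul_div_cancel_left _ (by norm_num),
      coeff_comp]
    have h : ((4 * M : ℕ) : ℤ) ∣ ((4 * n : ℕ) : ℤ) - 4 * s ↔ (M : ℤ) ∣ (n : ℤ) - s := by
      push_cast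
      rw [← mul_sub]
      exact mul_dvd_mul_iff_left (by norm_num)
    simp only [h]
  · rw [if_neg h4, if_neg h4, ite_self]

theorem comp_four_zero (M : ℕ) (s : ℤ) (G : S) (hs : ¬ (4 : ℤ) ∣ s) :
    comp (4 * M) s (G ^ 4) = 0 := by
  rw [four_eq]
  ext N
  rw [coeff_comp, coeff_expand, map_zero]
  by_cases h4 : 4 ∣ N
  · rw [if_neg]
    rintro ⟨c, hc⟩
    obtain ⟨n, rfl⟩ := h4
    push_cast at hc
    apply hs
    exact ⟨n - M * c, by linear_combination -hc⟩
  · rw [if_neg h4, ite_self]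

/-- the exponents `(4 ^ k - 1) / 3` -/
def ex : ℕ → ℕ
  | 0 => 0
  | k + 1 => 4 * ex k + 1

theorem three_ex (k : ℕ) : 3 * ex k + 1 = 4 ^ k := by
  induction k with
  | zero => rfl
  | succ k ih => rw [ex, pow_succ, ← ih]; ring

/-- the component functions -/
noncomputable def U (k : ℕ) (s : ℤ) : ℤ → S := fun t =>
  comp (2 ^ (2 * k + 3)) (s * (1 + 4 * t) ^ 2) (Db ^ ex k)

theorem U_zero (s t : ℤ) : U 0 s t = if (8 : ℤ) ∣ s then 1 else 0 := by
  unfold U
  rw [ex, pow_zero]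
  ext N
  rw [coeff_comp, coeff_one]
  have e8 : ((2 ^ (2 * 0 + 3) : ℕ) : ℤ) = 8 := by norm_num
  rw [e8]
  by_cases hN : N = 0
  · subst hN
    rw [if_pos rfl]
    have h : (8 : ℤ) ∣ ((0 : ℕ) : ℤ) - s * (1 + 4 * t) ^ 2 ↔ (8 : ℤ) ∣ s := by
      constructor
      · rintro ⟨c, hc⟩
        push_cast at hc
        exact ⟨-c - s * (t + 2 * t ^ 2), by linear_combination -hc⟩
      · rintro ⟨c, hc⟩
        push_cast
        exact ⟨-c * (1 + 4 * t) ^ 2, by rw [hc]; ring⟩
    simp only [h]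
    split_ifs
    · rw [coeff_one, if_pos rfl]
    · rw [map_zero]
  · rw [if_neg hN, ite_self]
    split_ifs
    · rw [coeff_one, if_neg hN]
    · rw [map_zero]

theorem U_succ (k : ℕ) (s t : ℤ) : U (k + 1) s t =
    ∑ i ∈ Finset.range (2 ^ (2 * k + 2)),
      th (2 ^ (2 * k + 2 + 2)) ((1 + 4 * (i : ℤ)) * (1 + 4 * t)) *
        (if (4 : ℤ) ∣ s - 1 then U k ((s - (1 + 4 * (i : ℤ)) ^ 2) / 4) t ^ 4 else 0) := by
  unfold U
  have h1 : (Db : S) ^ ex (k + 1) = Db * (Db ^ ex k) ^ 4 := by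
    rw [ex]
    ring
  rw [h1]
  generalize (Db : S) ^ ex k = G
  rw [Db_sum' (1 + 4 * t) (by omega) (2 * k + 2)]
  rw [Finset.sum_mul, comp_sum]
  refine Finset.sum_congr rfl fun i _ => ?_
  have hM : 2 ^ (2 * (k + 1) + 3) = 4 * 2 ^ (2 * k + 3) := by ring
  rw [comp_mul_supp _ _ (((1 + 4 * (i : ℤ)) * (1 + 4 * t)) ^ 2) _ _ (by
    intro N hN
    have := D1.supp (2 * k + 2 + 2) _ N (by omega) hN
    have e : ((2 ^ (2 * (k + 1) + 3) : ℕ) : ℤ) = 2 ^ (2 * k + 2 + 2 + 1) := by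
      push_cast
      congr 1
    rw [e]
    exact this)]
  congr 1
  -- keep Db ^ ex k
  have hs : s * (1 + 4 * t) ^ 2 - ((1 + 4 * (i : ℤ)) * (1 + 4 * t)) ^ 2 =
      (s - (1 + 4 * (i : ℤ)) ^ 2) * (1 + 4 * t) ^ 2 := by ring
  rw [hs, hM]
  split_ifs with h4
  · obtain ⟨c, hc⟩ : ∃ c, s - (1 + 4 * (i : ℤ)) ^ 2 = 4 * c := by
      obtain ⟨d, hd⟩ := h4
      exact ⟨d - 2 * i - 4 * (i : ℤ) ^ 2, by linear_combination hd⟩
    rw [hc, Int.mul_ediv_cancel_left _ (by norm_num), mul_assoc, comp_four]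
  · apply comp_four_zero
    rintro ⟨c, hc⟩
    apply h4
    refine ⟨c - (s - (1 + 4 * (i : ℤ)) ^ 2) * (2 * t + 4 * t ^ 2) + 2 * i + 4 * (i : ℤ) ^ 2, ?_⟩
    linear_combination hc

/-- the component functions in the algebra -/
noncomputable def u (k : ℕ) (s : ℤ) : ℤ → L := fun t => algebraMap S L (U k s t)

theorem u_succ (k : ℕ) (s : ℤ) : u (k + 1) s =
    ∑ i ∈ Finset.range (2 ^ (2 * k + 2)), A (2 * k + 2 + 2) (1 + 4 * (i : ℤ)) *
      (if (4 : ℤ) ∣ s - 1 then u k ((s - (1 + 4 * (i : ℤ)) ^ 2) / 4) ^ 4 else 0) := by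
  funext t
  rw [Finset.sum_apply]
  unfold u
  rw [U_succ, map_sum]
  refine Finset.sum_congr rfl fun i _ => ?_
  rw [map_mul, Pi.mul_apply]
  unfold A
  congr 1
  split_ifs
  · rw [map_pow]; rfl
  · rw [map_zero]; rfl

theorem u_mem (k : ℕ) (s : ℤ) : u k s ∈ V (2 * k + 2) := by
  induction k generalizing s with
  | zero =>
    have : u 0 s = if (8 : ℤ) ∣ s then 1 else 0 := by
      funext t
      unfold u
      rw [U_zero]
      split_ifs
      · rw [map_one]; rfl
      · rw [map_zero]; rfl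
    rw [this]
    split_ifs
    · exact one_mem _
    · exact zero_mem _
  | succ k ih =>
    rw [u_succ]
    refine Subalgebra.sum_mem _ fun i _ => ?_
    refine (V _).mul_mem ((lev (2 * k + 2)).mem _) ?_
    split_ifs
    · refine (V _).pow_mem ?_ 4
      exact V_mono (by omega) (V_mono (by omega) (ih _))
    · exact zero_mem _

/-- the weights -/
def ww : ℕ → ℕ
  | 0 => 0
  | k + 1 => en (2 * k + 2 + 2) + 4 * ww k

theorem nine_ww (k : ℕ) : 9 * ww k ≤ 4 ^ (2 * k + 2) := by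
  induction k with
  | zero => rw [ww]; norm_num
  | succ k ih =>
    rw [ww]
    have h1 := three_en (2 * k + 2 + 2)
    have e1 : 2 * k + 2 + 2 - 1 = (2 * k + 2) + 1 := by omega
    have e2 : 2 * (k + 1) + 2 = (2 * k + 2) + 2 := by ring
    rw [e1, pow_succ] at h1
    rw [e2, pow_add]
    norm_num
    omega

theorem u_wt (k : ℕ) (s t : ℤ) : Wt (ww k) (u k s t) := by
  induction k generalizing s with
  | zero =>
    unfold u
    rw [U_zero, ww]
    split_ifs
    · rw [map_one]; exact Wt.one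
    · rw [map_zero]; exact Wt.zero _
  | succ k ih =>
    rw [u_succ, Finset.sum_apply]
    refine Wt.sum _ _ fun i _ => ?_
    rw [Pi.mul_apply, ww]
    refine Wt.mul ?_ ?_
    · unfold A
      exact Wt.th (2 * k + 2) _ (by
        have : (1 + 4 * (i : ℤ)) * (1 + 4 * t) = 1 + 2 * (2 * i + 2 * t + 8 * i * t) := by ring
        omega)
    · split_ifs
      · exact (ih _).pow 4
      · exact Wt.zero _

/-- the leading component does not vanish -/
theorem u_ne (k : ℕ) : u k (ex k) ≠ 0 := by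
  intro h
  have h1 := congrFun h 0
  unfold u at h1
  rw [Pi.zero_apply, map_eq_zero_iff _ inj] at h1
  have h2 := congrArg (coeff (ex k)) h1
  unfold U at h2
  rw [coeff_comp, if_pos ⟨0, by ring⟩, Db_eq, mul_pow, map_zero] at h2
  rw [coeff_X_pow_mul' , if_pos le_rfl, Nat.sub_self, coeff_zero_eq_constantCoeff_apply, map_pow,
    map_pow, constE, one_pow, one_pow] at h2
  exact one_ne_zero h2

end Pool.Agent.J4H80.IG
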