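import Pool.Agent.J4H80.IG.Theta

set_option autoImplicit false

/-!
# The field `F_2(Db)` inside the field of fractions of `F_2[[X]]`
-/

namespace Pool.Agent.J4H80.IG

open PowerSeries Pool.Agent.TH693.PP Pool.Agent.H397R2.PP Pool.Agent.TH693.QQ

/-- the field of fractions of `F_2[[X]]` -/
abbrev L := FractionRing S

/-- the field of rational functions over `F_2` -/
abbrev K := RatFunc (ZMod 2)

/-- `Db` as an element of `L` -/
noncomputable def dL : L := algebraMap S L Db

/-- evaluation of polynomials at `Db`, in `S` -/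
noncomputable def evS : Polynomial (ZMod 2) →+* S := (Polynomial.aeval (Db : S)).toRingHom

/-- evaluation of polynomials at `Db`, in `L` -/
noncomputable def ev : Polynomial (ZMod 2) →+* L := (algebraMap S L).comp evS

theorem evS_X : evS Polynomial.X = Db := by
  unfold evS
  exact Polynomial.aeval_X _

theorem ev_X : ev Polynomial.X = dL := by
  unfold ev dL
  rw [RingHom.comp_apply, evS_X]

theorem inj : Function.Injective (algebraMap S L) := IsFractionRing.injective S L

theorem Db_eq : (Db : S) = X * E ^ 24 := rfl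

theorem constDb : constantCoeff (Db : S) = 0 := by
  rw [Db_eq, map_mul, constantCoeff_X, zero_mul]

theorem const_evS (Q : Polynomial (ZMod 2)) : constantCoeff (evS Q) = Q.coeff 0 := by
  have h : constantCoeff (evS Q) = Polynomial.eval₂ (RingHom.id (ZMod 2)) (constantCoeff (Db : S)) Q := by
    unfold evS
    change constantCoeff (Polynomial.aeval (Db : S) Q) = _
    rw [Polynomial.aeval_def, Polynomial.hom_eval₂]
    congr 1
  rw [h, constDb, Polynomial.eval₂_at_zero]
  rfl

/-- the order in `X` of a polynomial in `Db` is at most its degree -/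
theorem not_dvd_evS {Q : Polynomial (ZMod 2)} (hQ : Q ≠ 0) :
    ¬ (X : S) ^ (Q.natDegree + 1) ∣ evS Q := by
  obtain ⟨R, hR⟩ : (Polynomial.X : Polynomial (ZMod 2)) ^ Q.natTrailingDegree ∣ Q := by
    rw [Polynomial.X_pow_dvd_iff]
    intro d hd
    exact Polynomial.coeff_eq_zero_of_lt_natTrailingDegree hd
  set d := Q.natTrailingDegree with hd
  have hR0 : R.coeff 0 ≠ 0 := by
    have h1 : Q.coeff d ≠ 0 := by
      rw [hd]
      have := Polynomial.trailingCoeff_nonzero_iff_nonzero.2 hQ
      rwa [Polynomial.trailingCoeff] at this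
    rw [hR, Polynomial.coeff_X_pow_mul'] at h1
    simpa using h1
  intro h
  have hdQ : d ≤ Q.natDegree := Polynomial.natTrailingDegree_le_natDegree Q
  have h2 : (X : S) ^ (d + 1) ∣ evS Q := (pow_dvd_pow X (by omega)).trans h
  rw [hR, map_mul, map_pow, evS_X, Db_eq, mul_pow, pow_succ, mul_assoc] at h2
  have h3 : (X : S) ∣ (E ^ 24) ^ d * evS R := by
    have h4 : (X : S) ^ d ≠ 0 := pow_ne_zero _ X_ne
    exact (mul_dvd_mul_iff_left h4).1 h2
  rw [X_dvd_iff, map_mul, map_pow, map_pow, constE, one_pow, one_pow, one_mul, const_evS] at h3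
  exact hR0 h3

theorem evS_inj : Function.Injective evS := by
  rw [injective_iff_map_eq_zero]
  intro Q h
  by_contra hQ
  apply not_dvd_evS hQ
  rw [h]
  exact dvd_zero _

theorem ev_inj : Function.Injective ev := inj.comp evS_inj

/-- the embedding of `F_2(T)`, `T ↦ Db` -/
noncomputable def io' : K →+* L :=
  RatFunc.liftRingHom ev (nonZeroDivisors_le_comap_nonZeroDivisors_of_injective ev ev_inj)

noncomputable instance instKL : Algebra K L := io'.toAlgebra

theorem algKL (x : K) : algebraMap K L x = io' x := rfl

theorem io'_alg (Q : Polynomial (ZMod 2)) : io' (algebraMap (Polynomial (ZMod 2)) K Q) = ev Q := by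
  unfold io'
  exact RatFunc.liftRingHom_algebraMap ev _ Q

end Pool.Agent.J4H80.IG
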