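import Pool.Agent.J4H80.IG.Bnd2

set_option autoImplicit false

/-!
# Pairs of classes
-/

namespace Pool.Agent.J4H80.IG

open PowerSeries Pool.Agent.TH693.PP Pool.Agent.H397R2.PP Pool.Agent.TH693.QQ

theorem exists_val (x : ℤ) (hx : (2 : ℤ) ^ 3 ∣ x - 1) (n : ℕ) (hn : ¬ (2 : ℤ) ^ (n + 3) ∣ x - 1) :
    ∃ (e : ℕ) (o : ℤ), 3 ≤ e ∧ e < n + 3 ∧ Odd o ∧ x = 1 + 2 ^ e * o := by
  induction n with
  | zero => exact absurd hx hn
  | succ n ih =>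
    by_cases h : (2 : ℤ) ^ (n + 3) ∣ x - 1
    · obtain ⟨o, ho⟩ := h
      refine ⟨n + 3, o, by omega, by omega, ?_, by linear_combination ho⟩
      rw [← Int.not_even_iff_odd]
      rintro ⟨c, hc⟩
      apply hn
      exact ⟨c, by rw [ho, hc]; ring⟩
    · obtain ⟨e, o, h1, h2, h3, h4⟩ := ih h
      exact ⟨e, o, h1, by omega, h3, h4⟩

theorem pow_val {x : ℤ} {e : ℕ} {o : ℤ} (he : 3 ≤ e) (ho : Odd o) (hx : x = 1 + 2 ^ e * o) (l : ℕ) :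
    ∃ o' : ℤ, Odd o' ∧ x ^ 2 ^ l = 1 + 2 ^ (e + l) * o' := by
  induction l with
  | zero => exact ⟨o, ho, by rw [pow_zero, pow_one, add_zero]; exact hx⟩
  | succ l ih =>
    obtain ⟨o', ho', h⟩ := ih
    refine ⟨o' + 2 ^ (e + l - 1) * o' ^ 2, ?_, ?_⟩
    · apply ho'.add_even
      have : e + l - 1 = (e + l - 2) + 1 := by omega
      rw [this, pow_succ]
      exact ((even_two.mul_left _).mul_right _)
    · rw [pow_succ, pow_mul, h]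
      have : e + l = (e + l - 1) + 1 := by omega
      have e2 : e + (l + 1) = (e + l - 1) + 2 := by omega
      rw [e2, this, Nat.add_sub_cancel]
      ring

section

variable (k : ℕ)

/-- the components in level `k + 1` -/
noncomputable def Cz (y : ℤ) : S := comp (2 ^ (2 * (k + 1) + 3)) y (Db ^ ex (k + 1))

theorem Cz_congr {y y' : ℤ} (h : (32 * 4 ^ k : ℤ) ∣ y - y') : Cz k y = Cz k y' := by
  unfold Cz
  apply comp_congr
  have e : ((2 ^ (2 * (k + 1) + 3) : ℕ) : ℤ) = 32 * 4 ^ k := by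
    push_cast
    have : 2 * (k + 1) + 3 = 5 + 2 * k := by ring
    rw [this, pow_add, pow_mul]
    norm_num
  rw [e]
  exact h

theorem Cz_nat (r : ℕ) : Cz k ((8 * r + ex (k + 1) : ℕ) : ℤ) = Cc (k + 1) r := Cc_eq (k + 1) r

/-- every class `ex (k + 1)` modulo `8` is a square times `ex (k + 1)` -/
theorem exists_root (r : ℕ) : ∃ t : ℕ,
    (32 * 4 ^ k : ℤ) ∣ ((8 * r + ex (k + 1) : ℕ) : ℤ) - ex (k + 1) * (1 + 4 * (t : ℤ)) ^ 2 := by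
  obtain ⟨t, _, ht⟩ := rr_surj (k + 1) (show r % 4 ^ (k + 1) ∈
    ((Finset.range (4 ^ (k + 1)) : Finset ℕ) : Set ℕ) by
      rw [Finset.mem_coe, Finset.mem_range]; exact Nat.mod_lt _ (by positivity))
  refine ⟨t, ?_⟩
  unfold rr at ht
  have h1 : ex (k + 1) * (t * (1 + 2 * t)) ≡ r [MOD 4 ^ (k + 1)] := ht
  have h2 := Nat.modEq_iff_dvd.1 h1
  obtain ⟨c, hc⟩ := h2
  push_cast at hc
  refine ⟨c, ?_⟩
  push_cast
  rw [pow_succ] at hc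
  linear_combination 8 * hc

/-- a natural number in a class -/
theorem exists_nat {y : ℤ} (hy : (8 : ℤ) ∣ y - ex (k + 1)) : ∃ r : ℕ, r < 4 ^ (k + 1) ∧
    (32 * 4 ^ k : ℤ) ∣ y - ((8 * r + ex (k + 1) : ℕ) : ℤ) := by
  obtain ⟨c, hc⟩ := hy
  have hp : (0 : ℤ) < 4 ^ (k + 1) := by positivity
  have h2 : (((c % 4 ^ (k + 1)).toNat : ℕ) : ℤ) = c % 4 ^ (k + 1) :=
    Int.toNat_of_nonneg (Int.emod_nonneg _ hp.ne')
  refine ⟨(c % 4 ^ (k + 1)).toNat, ?_, c / 4 ^ (k + 1), ?_⟩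
  · have h3 := Int.emod_lt_of_pos c hp
    zify
    rw [h2]
    exact_mod_cast h3
  · push_cast
    rw [h2]
    have h3 := Int.emod_add_mul_ediv c (4 ^ (k + 1))
    have e : (32 : ℤ) * 4 ^ k = 8 * 4 ^ (k + 1) := by rw [pow_succ]; ring
    rw [e]
    linear_combination hc - 8 * h3

theorem exists_root' {y : ℤ} (hy : (8 : ℤ) ∣ y - ex (k + 1)) : ∃ t : ℤ,
    (32 * 4 ^ k : ℤ) ∣ y - ex (k + 1) * (1 + 4 * t) ^ 2 := by
  obtain ⟨r, _, hr⟩ := exists_nat k hy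
  obtain ⟨t, ht⟩ := exists_root k r
  refine ⟨t, ?_⟩
  have := dvd_add hr ht
  rwa [sub_add_sub_cancel] at this

theorem Cz_ne {y : ℤ} (hy : (8 : ℤ) ∣ y - ex (k + 1)) : Cz k y ≠ 0 := by
  obtain ⟨r, hr, h1⟩ := exists_nat k hy
  rw [Cz_congr k h1, Cz_nat]
  exact Cc_ne _ _ hr

theorem W4_exists : ∃ r < 4 ^ (k + 1), W4 k r ≠ 0 := by
  by_contra hno
  push Not at hno
  apply wt_ne k
  apply (lev (2 * (k + 1))).van _ (wt_mem k) ((0 : ℕ) : ℤ)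
  rw [wt_eq, wtS_rr, hno _ (rr_lt _ _), map_zero]

/-- proportionality of the pairs of components -/
def Rel (y y' : ℤ) : Prop := Cz k y * Cz k (y' + 8 * 4 ^ k) = Cz k (y + 8 * 4 ^ k) * Cz k y'

theorem Rel.trans {y y' y'' : ℤ} (hy' : (8 : ℤ) ∣ y' - ex (k + 1)) (h1 : Rel k y y') (h2 : Rel k y' y'') :
    Rel k y y'' := by
  unfold Rel at *
  have n1 := Cz_ne k hy'
  have n2 : Cz k (y' + 8 * 4 ^ k) ≠ 0 := by
    apply Cz_ne
    have e : y' + 8 * 4 ^ k - (ex (k + 1) : ℤ) = (y' - ex (k + 1)) + 8 * 4 ^ k := by ring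
    rw [e]
    exact dvd_add hy' (Dvd.intro _ rfl)
  have h3 : (Cz k y' * Cz k (y' + 8 * 4 ^ k)) * (Cz k y * Cz k (y'' + 8 * 4 ^ k)) =
      (Cz k y' * Cz k (y' + 8 * 4 ^ k)) * (Cz k (y + 8 * 4 ^ k) * Cz k y'') := by
    linear_combination (Cz k y' * Cz k (y'' + 8 * 4 ^ k)) * h1 + (Cz k (y + 8 * 4 ^ k) * Cz k y') * h2
  exact mul_left_cancel₀ (mul_ne_zero n1 n2) h3

theorem Rel.congr {y y' z z' : ℤ} (h : Rel k y y') (h1 : (32 * 4 ^ k : ℤ) ∣ y - z)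
    (h2 : (32 * 4 ^ k : ℤ) ∣ y' - z') : Rel k z z' := by
  unfold Rel at *
  have h3 : (32 * 4 ^ k : ℤ) ∣ (y + 8 * 4 ^ k) - (z + 8 * 4 ^ k) := by
    rw [add_sub_add_right_eq_sub]; exact h1
  have h4 : (32 * 4 ^ k : ℤ) ∣ (y' + 8 * 4 ^ k) - (z' + 8 * 4 ^ k) := by
    rw [add_sub_add_right_eq_sub]; exact h2
  rw [← Cz_congr k h1, ← Cz_congr k h2, ← Cz_congr k h3, ← Cz_congr k h4]
  exact h

/-- the relation for all multiples by squares is impossible for distinct classes -/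
theorem no_Rel {s s' : ℤ} (hs : (8 : ℤ) ∣ s - ex (k + 1)) (hs' : (8 : ℤ) ∣ s' - ex (k + 1))
    (hne : ¬ (8 * 4 ^ k : ℤ) ∣ s - s') (h : ∀ t : ℤ, Rel k (s * (1 + 4 * t) ^ 2) (s' * (1 + 4 * t) ^ 2)) :
    False := by
  obtain ⟨t1, ht1⟩ := exists_root' k hs
  obtain ⟨t2, ht2⟩ := exists_root' k hs'
  -- the inverse of `1 + 4 t1`
  obtain ⟨t3, c3, h3⟩ : ∃ t3 c3 : ℤ, (1 + 4 * t1) * (1 + 4 * t3) = 1 + 32 * 4 ^ k * c3 := by
    have hco : IsCoprime (1 + 4 * t1) ((32 * 4 ^ k : ℤ)) := by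
      have e : (32 : ℤ) * 4 ^ k = 2 ^ (2 * k + 5) := by
        rw [pow_add, pow_mul]; norm_num; ring
      rw [e]
      apply IsCoprime.pow_right
      exact ⟨1, -2 * t1, by ring⟩
    obtain ⟨a, b, hab⟩ := hco
    have ha : a % 4 = 1 := by
      have h4 : a + 4 * (a * t1 + b * (8 * 4 ^ k)) = 1 := by linear_combination hab
      omega
    obtain ⟨t3, rfl⟩ : ∃ t3, a = 1 + 4 * t3 := ⟨a / 4, by omega⟩
    exact ⟨t3, -b, by linear_combination hab⟩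
  set m : ℤ := ((ex (k + 1) : ℕ) : ℤ) with hm
  set q : ℤ := (1 + 4 * t2) * (1 + 4 * t3) with hq
  obtain ⟨z, hz⟩ : ∃ z, q = 1 + 4 * z := ⟨t2 + t3 + 4 * t2 * t3, by rw [hq]; ring⟩
  obtain ⟨d1, hd1⟩ := ht1
  obtain ⟨d2, hd2⟩ := ht2
  -- the basic relation
  have R1 : ∀ t : ℤ, Rel k (m * (1 + 4 * t) ^ 2) (m * q ^ 2 * (1 + 4 * t) ^ 2) := by
    intro t
    have h4 := h (t + t3 + 4 * t * t3)
    have e : 1 + 4 * (t + t3 + 4 * t * t3) = (1 + 4 * t) * (1 + 4 * t3) := by ring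
    rw [e] at h4
    refine h4.congr k ?_ ?_
    · refine ⟨d1 * ((1 + 4 * t) * (1 + 4 * t3)) ^ 2 +
        m * (1 + 4 * t) ^ 2 * (2 * c3 + 32 * 4 ^ k * c3 ^ 2), ?_⟩
      linear_combination ((1 + 4 * t) * (1 + 4 * t3)) ^ 2 * hd1 +
        m * (1 + 4 * t) ^ 2 * ((1 + 4 * t1) * (1 + 4 * t3) + 1 + 32 * 4 ^ k * c3) * h3
    · refine ⟨d2 * ((1 + 4 * t) * (1 + 4 * t3)) ^ 2, ?_⟩
      rw [hq]
      linear_combination ((1 + 4 * t) * (1 + 4 * t3)) ^ 2 * hd2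
  have hqn : ∀ n : ℕ, ∃ zn : ℤ, q ^ n = 1 + 4 * zn := by
    intro n
    induction n with
    | zero => exact ⟨0, by ring⟩
    | succ n ih =>
      obtain ⟨zn, hzn⟩ := ih
      exact ⟨z + zn + 4 * z * zn, by rw [pow_succ, hzn, hz]; ring⟩
  have hm8 : ∀ t : ℤ, (8 : ℤ) ∣ m * (1 + 4 * t) ^ 2 - m := fun t => ⟨m * (t + 2 * t ^ 2), by ring⟩
  have R2 : ∀ (n : ℕ) (t : ℤ), Rel k (m * (1 + 4 * t) ^ 2) (m * (q ^ 2) ^ n * (1 + 4 * t) ^ 2) := by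
    intro n
    induction n with
    | zero =>
      intro t
      rw [pow_zero, mul_one]
      unfold Rel
      ring
    | succ n ih =>
      intro t
      obtain ⟨zn, hzn⟩ := hqn n
      have h5 := R1 (t + zn + 4 * t * zn)
      have e1 : m * (1 + 4 * (t + zn + 4 * t * zn)) ^ 2 = m * (q ^ 2) ^ n * (1 + 4 * t) ^ 2 := by
        have : (q ^ 2) ^ n = (q ^ n) ^ 2 := by rw [← pow_mul, ← pow_mul, mul_comm]
        rw [this, hzn]; ring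
      have e2 : m * q ^ 2 * (1 + 4 * (t + zn + 4 * t * zn)) ^ 2 = m * (q ^ 2) ^ (n + 1) * (1 + 4 * t) ^ 2 := by
        have : m * q ^ 2 * (1 + 4 * (t + zn + 4 * t * zn)) ^ 2 =
          q ^ 2 * (m * (1 + 4 * (t + zn + 4 * t * zn)) ^ 2) := by ring
        rw [this, e1]; ring
      rw [e1, e2] at h5
      refine Rel.trans k ?_ (ih t) h5
      have e3 : m * (q ^ 2) ^ n * (1 + 4 * t) ^ 2 = m * (1 + 4 * (t + zn + 4 * t * zn)) ^ 2 := e1.symm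
      rw [e3]
      exact hm8 _
  -- the 2-adic valuation
  have hx3 : (2 : ℤ) ^ 3 ∣ q ^ 2 - 1 := ⟨z + 2 * z ^ 2, by rw [hz]; ring⟩
  have hxn : ¬ (2 : ℤ) ^ (2 * k + 3) ∣ q ^ 2 - 1 := by
    intro h6
    apply hne
    have e : (8 : ℤ) * 4 ^ k = 2 ^ (2 * k + 3) := by
      rw [pow_add, pow_mul]; norm_num; ring
    rw [e]
    obtain ⟨c, hc⟩ := h6
    rw [← e] at hc ⊢
    -- `s - s' ≡ m (1 + 4 t1) ^ 2 (1 - q ^ 2)`
    refine ⟨4 * (d1 - d2) - m * (1 + 4 * t1) ^ 2 * c +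
      4 * m * (1 + 4 * t2) ^ 2 * (2 * c3 + 32 * 4 ^ k * c3 ^ 2), ?_⟩
    have h7 : (1 + 4 * t1) ^ 2 * q ^ 2 = (1 + 4 * t2) ^ 2 * (1 + 32 * 4 ^ k * c3) ^ 2 := by
      rw [← h3, hq]; ring
    linear_combination hd1 - hd2 - m * (1 + 4 * t1) ^ 2 * hc + m * h7
  obtain ⟨e, o, he3, he, ho, hx⟩ := exists_val (q ^ 2) hx3 (2 * k) hxn
  obtain ⟨o', ho', hxl⟩ := pow_val he3 ho hx (2 * k + 4 - e)
  have e4 : e + (2 * k + 4 - e) = 2 * k + 4 := by omega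
  rw [e4] at hxl
  have e5 : (2 : ℤ) ^ (2 * k + 4) = 16 * 4 ^ k := by
    rw [pow_add, pow_mul]; norm_num; ring
  rw [e5] at hxl
  obtain ⟨r, hr, hW⟩ := W4_exists k
  obtain ⟨t, ht⟩ := exists_root k r
  have h8 := R2 (2 ^ (2 * k + 4 - e)) t
  rw [hxl] at h8
  have hmo : Odd m := by
    rw [hm]
    exact_mod_cast ex_odd (k + 1) (by omega)
  obtain ⟨c, hc⟩ : ∃ c, m * (1 + 4 * t) ^ 2 * o' = 1 + 2 * c := by
    have : Odd (m * (1 + 4 * (t : ℤ)) ^ 2 * o') := by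
      apply Odd.mul _ ho'
      apply hmo.mul
      exact Odd.pow ⟨2 * t, by ring⟩
    obtain ⟨c, hc⟩ := this
    exact ⟨c, by rw [hc]; ring⟩
  obtain ⟨d, hd⟩ := ht
  have h9 : Rel k ((8 * r + ex (k + 1) : ℕ) : ℤ) ((8 * (r + 2 * 4 ^ k) + ex (k + 1) : ℕ) : ℤ) := by
    refine h8.congr k ?_ ?_
    · exact ⟨-d, by linear_combination -hd⟩
    · refine ⟨-d + c, ?_⟩
      push_cast at hd ⊢
      linear_combination -hd + 16 * 4 ^ k * hc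
  unfold Rel at h9
  have a1 : ((8 * (r + 2 * 4 ^ k) + ex (k + 1) : ℕ) : ℤ) + 8 * 4 ^ k =
      ((8 * (r + 3 * 4 ^ k) + ex (k + 1) : ℕ) : ℤ) := by push_cast; ring
  have a2 : ((8 * r + ex (k + 1) : ℕ) : ℤ) + 8 * 4 ^ k = ((8 * (r + 4 ^ k) + ex (k + 1) : ℕ) : ℤ) := by
    push_cast; ring
  rw [a1, a2, Cz_nat, Cz_nat, Cz_nat, Cz_nat] at h9
  apply hW
  unfold W4
  rw [h9]
  exact add_self _

end

end Pool.Agent.J4H80.IG
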