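import Pool.Agent.J4H80.IG.Pairs

set_option autoImplicit false

/-!
# Pairs of classes: the bound
-/

namespace Pool.Agent.J4H80.IG

open PowerSeries Pool.Agent.TH693.PP Pool.Agent.H397R2.PP Pool.Agent.TH693.QQ

section

variable (k r r' : ℕ)

/-- the element of the tower attached to a pair of classes -/
noncomputable def wp : ℤ → L :=
  u (k + 1) ((8 * r + ex (k + 1) : ℕ) : ℤ) * u (k + 1) ((8 * (r' + 4 ^ k) + ex (k + 1) : ℕ) : ℤ) +
  u (k + 1) ((8 * (r + 4 ^ k) + ex (k + 1) : ℕ) : ℤ) * u (k + 1) ((8 * r' + ex (k + 1) : ℕ) : ℤ)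

noncomputable def wpS : ℤ → S := fun t =>
  U (k + 1) ((8 * r + ex (k + 1) : ℕ) : ℤ) t * U (k + 1) ((8 * (r' + 4 ^ k) + ex (k + 1) : ℕ) : ℤ) t +
  U (k + 1) ((8 * (r + 4 ^ k) + ex (k + 1) : ℕ) : ℤ) t * U (k + 1) ((8 * r' + ex (k + 1) : ℕ) : ℤ) t

theorem wp_eq (t : ℤ) : wp k r r' t = algebraMap S L (wpS k r r' t) := by
  unfold wp wpS u
  rw [map_add, map_mul, map_mul]
  rfl

theorem wp_mem : wp k r r' ∈ V (2 * (k + 1) + 2) :=
  (V _).add_mem ((V _).mul_mem (u_mem _ _) (u_mem _ _)) ((V _).mul_mem (u_mem _ _) (u_mem _ _))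

theorem wp_wt (t : ℤ) : Wt (ww (k + 1) + ww (k + 1)) (wp k r r' t) := by
  unfold wp
  exact Wt.add (Wt.mul (u_wt _ _ _) (u_wt _ _ _)) (Wt.mul (u_wt _ _ _) (u_wt _ _ _))

theorem U_Cz (s t : ℤ) : U (k + 1) s t = Cz k (s * (1 + 4 * t) ^ 2) := rfl

theorem wp_ne (hne : ¬ (4 ^ k : ℤ) ∣ (r : ℤ) - r') : wp k r r' ≠ 0 := by
  intro h
  apply no_Rel k (s := ((8 * r + ex (k + 1) : ℕ) : ℤ)) (s' := ((8 * r' + ex (k + 1) : ℕ) : ℤ))
  · exact ⟨r, by push_cast; ring⟩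
  · exact ⟨r', by push_cast; ring⟩
  · rintro ⟨c, hc⟩
    push_cast at hc
    exact hne ⟨c, by linarith⟩
  · intro t
    have h1 := congrFun h t
    rw [wp_eq, Pi.zero_apply, map_eq_zero_iff _ inj] at h1
    unfold wpS at h1
    have h2 := eq_of_add h1
    rw [U_Cz, U_Cz, U_Cz, U_Cz] at h2
    unfold Rel
    have e1 : Cz k (((8 * (r' + 4 ^ k) + ex (k + 1) : ℕ) : ℤ) * (1 + 4 * t) ^ 2) =
        Cz k (((8 * r' + ex (k + 1) : ℕ) : ℤ) * (1 + 4 * t) ^ 2 + 8 * 4 ^ k) := by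
      apply Cz_congr
      exact ⟨2 * (t + 2 * t ^ 2), by push_cast; ring⟩
    have e2 : Cz k (((8 * (r + 4 ^ k) + ex (k + 1) : ℕ) : ℤ) * (1 + 4 * t) ^ 2) =
        Cz k (((8 * r + ex (k + 1) : ℕ) : ℤ) * (1 + 4 * t) ^ 2 + 8 * 4 ^ k) := by
      apply Cz_congr
      exact ⟨2 * (t + 2 * t ^ 2), by push_cast; ring⟩
    rw [← e1, ← e2]
    exact h2

theorem shift_dvd {x : ℕ} (hr : r < r') (hr' : r' < 4 ^ k) {i : ℕ} (hi1 : 1 ≤ i) (hi : i ≤ 2)
    (h : ∀ n, 1 ≤ n → 4 ^ k * n + r' ≤ x → Fintype.card (Nat.Partition (4 ^ k * n + r)) % 2 =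
      Fintype.card (Nat.Partition (4 ^ k * n + r')) % 2) :
    ∃ g : S, proj (4 * 4 ^ k) (r' + i * 4 ^ k) P =
      X ^ (r' - r) * proj (4 * 4 ^ k) (r + i * 4 ^ k) P + X ^ (x + 1) * g := by
  have hlt : r' + i * 4 ^ k < 4 * 4 ^ k := by
    have : i * 4 ^ k ≤ 2 * 4 ^ k := Nat.mul_le_mul_right _ hi
    omega
  have h1 : (X : S) ^ (x + 1) ∣ proj (4 * 4 ^ k) (r' + i * 4 ^ k) P -
      X ^ (r' - r) * proj (4 * 4 ^ k) (r + i * 4 ^ k) P := by
    rw [X_pow_dvd_iff]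
    intro n hn
    rw [map_sub, QE1.coeff_proj, coeff_X_pow_mul', Nat.mod_eq_of_lt hlt]
    by_cases h2 : n % (4 * 4 ^ k) = r' + i * 4 ^ k
    · have h3 := Nat.mod_add_div n (4 * 4 ^ k)
      set q := n / (4 * 4 ^ k) with hq
      have hn' : n = 4 ^ k * (4 * q + i) + r' := by rw [← h3, h2]; ring
      have hle : r' - r ≤ n := by rw [hn']; omega
      rw [if_pos h2, if_pos hle, QE1.coeff_proj, Nat.mod_eq_of_lt (show r + i * 4 ^ k < 4 * 4 ^ k by omega)]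
      have e1 : n - (r' - r) = 4 ^ k * (4 * q + i) + r := by omega
      have e2 : (n - (r' - r)) % (4 * 4 ^ k) = r + i * 4 ^ k := by
        rw [e1]
        have : 4 ^ k * (4 * q + i) + r = (r + i * 4 ^ k) + 4 * 4 ^ k * q := by ring
        rw [this, Nat.add_mul_mod_self_left, Nat.mod_eq_of_lt (by omega)]
      rw [if_pos e2, e1]
      unfold P
      rw [coeff_mk, coeff_mk, sub_eq_zero, hn']
      have h4 := h (4 * q + i) (by omega) (by omega)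
      have h5 : (Fintype.card (Nat.Partition (4 ^ k * (4 * q + i) + r'))) ≡
        (Fintype.card (Nat.Partition (4 ^ k * (4 * q + i) + r))) [MOD 2] := h4.symm
      exact (ZMod.natCast_eq_natCast_iff _ _ _).2 h5
    · rw [if_neg h2]
      by_cases h3 : r' - r ≤ n
      · rw [if_pos h3, QE1.coeff_proj, Nat.mod_eq_of_lt (show r + i * 4 ^ k < 4 * 4 ^ k by omega),
          if_neg, sub_self]
        intro h4
        apply h2
        have h5 := Nat.mod_add_div (n - (r' - r)) (4 * 4 ^ k)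
        rw [h4] at h5
        have h6 : n = (r' + i * 4 ^ k) + 4 * 4 ^ k * ((n - (r' - r)) / (4 * 4 ^ k)) := by omega
        rw [h6, Nat.add_mul_mod_self_left, Nat.mod_eq_of_lt hlt]
      · rw [if_neg h3, sub_self]
  obtain ⟨g, hg⟩ := h1
  exact ⟨g, by linear_combination hg⟩

theorem wpS_dvd {x : ℕ} (hr : r < r') (hr' : r' < 4 ^ k)
    (h : ∀ n, 1 ≤ n → 4 ^ k * n + r' ≤ x → Fintype.card (Nat.Partition (4 ^ k * n + r)) % 2 =
      Fintype.card (Nat.Partition (4 ^ k * n + r')) % 2) :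
    (X : S) ^ (8 * (x + 1)) ∣ wpS k (r + 4 ^ k) (r' + 4 ^ k) 0 := by
  have hU : ∀ r, U (k + 1) ((8 * r + ex (k + 1) : ℕ) : ℤ) 0 = Cc (k + 1) r := by
    intro r
    rw [← Cc_eq]
    unfold U
    congr 1
    ring
  obtain ⟨g0, h0⟩ := shift_dvd k r r' hr hr' (i := 1) le_rfl (by norm_num) h
  obtain ⟨g1, h1⟩ := shift_dvd k r r' hr hr' (i := 2) (by norm_num) le_rfl h
  rw [one_mul] at h0
  have e0 : ∀ z : ℕ, z + 4 ^ k + 4 ^ k = z + 2 * 4 ^ k := fun z => by ring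
  unfold wpS
  rw [e0, e0]
  rw [hU, hU, hU, hU]
  unfold Cc
  rw [four_two' k, h0, h1]
  have h8 : ∀ f : S, expand 8 (by norm_num) f = f ^ 8 := fun f => (pow_eq_expand 3 f).symm
  generalize expand (2 ^ (2 * (k + 1) + 3)) _ E = e
  simp only [h8, add_eight, mul_pow, ← pow_mul]
  rw [mul_comm (x + 1) 8]
  generalize (X : S) ^ ex (k + 1) = m
  generalize (X : S) ^ (8 * (x + 1)) = Y
  generalize (X : S) ^ ((r' - r) * 8) = Z
  generalize proj (4 * 4 ^ k) (r + 4 ^ k) P ^ 8 = f0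
  generalize proj (4 * 4 ^ k) (r + 2 * 4 ^ k) P ^ 8 = f1
  refine ⟨m ^ 2 * e ^ 2 * (f0 * g1 ^ 8 + f1 * g0 ^ 8), ?_⟩
  linear_combination (m ^ 2 * e ^ 2 * f0 * f1 * Z) * two_zero

theorem pair_bound {x : ℕ} (hr : r < r') (hr' : r' < 4 ^ k)
    (h : ∀ n, 1 ≤ n → 4 ^ k * n + r' ≤ x → Fintype.card (Nat.Partition (4 ^ k * n + r)) % 2 =
      Fintype.card (Nat.Partition (4 ^ k * n + r')) % 2) : 9 * (x + 1) ≤ 256 * 64 ^ k := by
  have hne : ¬ (4 ^ k : ℤ) ∣ ((r + 4 ^ k : ℕ) : ℤ) - ((r' + 4 ^ k : ℕ) : ℤ) := by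
    rintro ⟨c, hc⟩
    push_cast at hc
    have h1 : (r : ℤ) - r' = 4 ^ k * c := by linarith
    have h2 : (0 : ℤ) < 4 ^ k := by positivity
    have h3 : (r' : ℤ) < 4 ^ k := by exact_mod_cast hr'
    have h4 : (r : ℤ) < r' := by exact_mod_cast hr
    have h5 : (0 : ℤ) ≤ r := by positivity
    rcases lt_trichotomy c 0 with h | h | h
    · have : 4 ^ k * c ≤ 4 ^ k * (-1) := mul_le_mul_of_nonneg_left (by omega) h2.le
      linarith
    · subst h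
      linarith
    · have : 4 ^ k * 1 ≤ 4 ^ k * c := mul_le_mul_of_nonneg_left (by omega) h2.le
      linarith
  have hv := valence (2 * (k + 1)) (wp_mem k (r + 4 ^ k) (r' + 4 ^ k)) (wp_ne k _ _ hne)
    (wp_wt k (r + 4 ^ k) (r' + 4 ^ k))
    (wpS k (r + 4 ^ k) (r' + 4 ^ k)) (wp_eq k (r + 4 ^ k) (r' + 4 ^ k)) (fun t => if t = 0 then 8 * (x + 1) else 0) (by
      intro t ht
      split_ifs with h0
      · subst h0
        exact wpS_dvd k r r' hr hr' h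
      · rw [pow_zero]
        exact one_dvd _)
  rw [four_two, Finset.sum_ite_eq' (Finset.range (4 ^ (k + 1))) 0 (fun _ => 8 * (x + 1)),
    if_pos (Finset.mem_range.2 (by positivity))] at hv
  have h9 := nine_ww (k + 1)
  have e1 : (4 : ℕ) ^ (2 * (k + 1) + 2) = 256 * 4 ^ k * 4 ^ k := by
    have : 2 * (k + 1) + 2 = 4 + (k + k) := by ring
    rw [this, pow_add, pow_add]; ring
  have e2 : (64 : ℕ) ^ k = 4 ^ k * 4 ^ k * 4 ^ k := by
    rw [← mul_pow, ← mul_pow]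
    norm_num
  rw [e1] at h9
  rw [e2]
  have h10 : 8 * (9 * (x + 1)) ≤ 8 * (256 * (4 ^ k * 4 ^ k * 4 ^ k)) := by
    calc 8 * (9 * (x + 1)) = 9 * (8 * (x + 1)) := by ring
      _ ≤ 9 * (4 ^ (k + 1) * (ww (k + 1) + ww (k + 1))) := Nat.mul_le_mul_left _ hv
      _ = 8 * 4 ^ k * (9 * ww (k + 1)) := by rw [pow_succ]; ring
      _ ≤ 8 * 4 ^ k * (256 * 4 ^ k * 4 ^ k) := Nat.mul_le_mul_left _ h9
      _ = _ := by ring
  omega

end

end Pool.Agent.J4H80.IG
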