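import Pool.Agent.J4H80.IG.Comp

set_option autoImplicit false

/-!
# The components of `Db ^ ex k` and the sections of the partition series
-/

namespace Pool.Agent.J4H80.IG

open PowerSeries Pool.Agent.TH693.PP Pool.Agent.H397R2.PP Pool.Agent.TH693.QQ

/-- the component attached to the class of `r` modulo `4 ^ k` -/
noncomputable def Cc (k r : ℕ) : S :=
  X ^ ex k * expand 8 (by norm_num) (proj (2 ^ (2 * k)) r P) *
    expand (2 ^ (2 * k + 3)) (by positivity) E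

theorem Cc_eq (k r : ℕ) : comp (2 ^ (2 * k + 3)) ((8 * r + ex k : ℕ) : ℤ) (Db ^ ex k) = Cc k r := by
  have hs := three_ex k
  have hDb : Db = X * E ^ 24 := rfl
  have h8 : ∀ f : S, expand 8 (by norm_num) f = f ^ 8 := fun f => (pow_eq_expand 3 f).symm
  have e1 : Db ^ ex k = X ^ ex k * expand 8 (by norm_num) P *
      expand (2 ^ (2 * k + 3)) (by positivity) E := by
    rw [h8, ← pow_eq_expand, hDb]
    have e2 : 2 ^ (2 * k + 3) = 24 * ex k + 8 := by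
      rw [pow_add, pow_mul]
      have : (2 : ℕ) ^ 2 = 4 := rfl
      rw [this, ← hs]
      ring
    rw [e2]
    have h := P_mul_E
    calc (X * E ^ 24) ^ ex k = X ^ ex k * E ^ (24 * ex k) * (P * E) ^ 8 := by rw [h]; ring
      _ = _ := by ring
  rw [comp_eq_proj, e1, QE1.proj_mul_expand _ _ _ _ dvd_rfl, QE1.proj_X_pow]
  rfl

theorem Cc_congr (k : ℕ) {r r' : ℕ} (h : r % 2 ^ (2 * k) = r' % 2 ^ (2 * k)) : Cc k r = Cc k r' := by
  unfold Cc
  congr 3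
  ext n
  rw [QE1.coeff_proj, QE1.coeff_proj, h]

theorem U_eq (k c t : ℕ) (hc : 4 ^ k ∣ 8 * c) :
    U k ((ex k + 8 * c : ℕ) : ℤ) (t : ℤ) = Cc k (ex k * (t * (1 + 2 * t)) + c) := by
  rw [← Cc_eq]
  unfold U
  apply comp_congr
  obtain ⟨d, hd⟩ := hc
  refine ⟨d * (t + 2 * t ^ 2), ?_⟩
  have hd' : (8 : ℤ) * c = 4 ^ k * d := by exact_mod_cast hd
  push_cast
  have e : (2 : ℤ) ^ (2 * k + 3) = 8 * 4 ^ k := by
    rw [pow_add, pow_mul]
    norm_num
    ring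
  rw [e]
  linear_combination (8 * (t : ℤ) + 16 * t ^ 2) * hd'

/-- the class attached to `t` -/
def rr (k t : ℕ) : ℕ := (ex k * (t * (1 + 2 * t))) % 4 ^ k

theorem ex_odd (k : ℕ) (hk : k ≠ 0) : Odd (ex k) := by
  obtain ⟨k, rfl⟩ := Nat.exists_eq_succ_of_ne_zero hk
  exact ⟨2 * ex k, by rw [ex]; ring⟩

theorem rr_inj (k : ℕ) : Set.InjOn (rr k) (Finset.range (4 ^ k) : Set ℕ) := by
  intro t ht s hs h
  rw [Finset.mem_coe, Finset.mem_range] at ht hs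
  rcases Nat.eq_zero_or_pos k with rfl | hk
  · rw [pow_zero] at ht hs
    omega
  unfold rr at h
  have hco : Nat.Coprime (4 ^ k) (ex k) := by
    have h4 : (4 : ℕ) ^ k = 2 ^ (2 * k) := by rw [pow_mul]; norm_num
    rw [h4]
    exact Nat.Coprime.pow_left _ ((Nat.coprime_two_left).2 (ex_odd k (by omega)))
  have h1 : t * (1 + 2 * t) ≡ s * (1 + 2 * s) [MOD 4 ^ k] := by
    apply Nat.ModEq.cancel_left_of_coprime _ h
    exact hco
  have h2 : ((4 ^ k : ℕ) : ℤ) ∣ ((s : ℤ) - t) * (1 + 2 * (s + t)) := by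
    have h3 := (Nat.modEq_iff_dvd.1 h1)
    push_cast at h3 ⊢
    have e : ((s : ℤ) - t) * (1 + 2 * (s + t)) = s * (1 + 2 * s) - t * (1 + 2 * t) := by ring
    rw [e]
    exact h3
  have h4 : IsCoprime ((4 ^ k : ℕ) : ℤ) (1 + 2 * ((s : ℤ) + t)) := by
    push_cast
    apply IsCoprime.pow_left
    exact ⟨-((s : ℤ) + t) * (s + t + 1), 1 + 2 * ((s : ℤ) + t), by ring⟩
  have h5 := h4.dvd_of_dvd_mul_right h2
  have h6 : t ≡ s [MOD 4 ^ k] := Nat.modEq_iff_dvd.2 h5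
  rwa [Nat.ModEq, Nat.mod_eq_of_lt ht, Nat.mod_eq_of_lt hs] at h6

theorem rr_lt (k t : ℕ) : rr k t < 4 ^ k := Nat.mod_lt _ (by positivity)

theorem rr_surj (k : ℕ) : Set.SurjOn (rr k) (Finset.range (4 ^ k) : Set ℕ) (Finset.range (4 ^ k) : Set ℕ) := by
  apply Finset.surjOn_of_injOn_of_card_le (rr k) _ (rr_inj k) le_rfl
  intro t _
  rw [Finset.mem_coe, Finset.mem_range]
  exact rr_lt k t

theorem rr_sum (k : ℕ) (f : ℕ → ℕ) :
    ∑ t ∈ Finset.range (4 ^ k), f (rr k t) = ∑ r ∈ Finset.range (4 ^ k), f r :=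
  Finset.sum_nbij (rr k) (fun t _ => Finset.mem_range.2 (rr_lt k t)) (rr_inj k) (rr_surj k)
    fun _ _ => rfl

theorem U_rr (k c t : ℕ) (hc : 4 ^ k ∣ 8 * c) :
    U k ((ex k + 8 * c : ℕ) : ℤ) (t : ℤ) = Cc k (rr k t + c) := by
  rw [U_eq k c t hc]
  apply Cc_congr
  have h4 : (4 : ℕ) ^ k = 2 ^ (2 * k) := by rw [pow_mul]; norm_num
  unfold rr
  rw [← h4, Nat.mod_add_mod]

end Pool.Agent.J4H80.IG
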