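import Pool.Agent.TH693.QQ.QD1
import Pool.Agent.TH693.QQ.QD

set_option autoImplicit false

/-!
# Theta functions with characteristics modulo 2: further identities
-/

namespace Pool.Agent.J4H80.IG

open PowerSeries Pool.Agent.TH693.PP Pool.Agent.H397R2.PP Pool.Agent.TH693.QQ
open Pool.Agent.TH693.QQ.D1 (coeff_th bound coeff_th_sq coeff_prod)

theorem th_congr {M : ℕ} {a b : ℤ} (h : (M : ℤ) ∣ a - b) : th M a = th M b := by
  ext n
  rw [coeff_th _ _ n n le_rfl, coeff_th _ _ n n le_rfl]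
  refine Finset.sum_congr ?_ fun _ _ => rfl
  ext z
  simp only [Finset.mem_filter]
  have : (M : ℤ) ∣ z - a ↔ (M : ℤ) ∣ z - b := by
    have e : z - b = z - a + (a - b) := by ring
    rw [e]
    exact (dvd_add_left h).symm
  rw [this]

theorem th_neg (M : ℕ) (a : ℤ) : th M (-a) = th M a := by
  classical
  ext n
  rw [coeff_th _ _ n n le_rfl, coeff_th _ _ n n le_rfl]
  refine Finset.sum_bij' (fun z _ => -z) (fun z _ => -z) ?_ ?_ ?_ ?_ ?_
  · intro z hz
    simp only [Finset.mem_filter, Finset.mem_Icc] at hz ⊢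
    obtain ⟨⟨h1, h2⟩, h3, c, hc⟩ := hz
    exact ⟨⟨by omega, by omega⟩, by rw [neg_sq]; exact h3, -c, by linear_combination -hc⟩
  · intro z hz
    simp only [Finset.mem_filter, Finset.mem_Icc] at hz ⊢
    obtain ⟨⟨h1, h2⟩, h3, c, hc⟩ := hz
    exact ⟨⟨by omega, by omega⟩, by rw [neg_sq]; exact h3, -c, by linear_combination -hc⟩
  · intro z _; exact neg_neg z
  · intro z _; exact neg_neg z
  · intro z _; rfl

/-- a class stable under `z ↦ -z` -/
theorem th_sym {M : ℕ} {a : ℤ} (h : (M : ℤ) ∣ 2 * a) : th M a = if (M : ℤ) ∣ a then 1 else 0 := by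
  classical
  ext n
  rw [coeff_th _ _ n n le_rfl]
  by_cases hn : n = 0
  · subst hn
    by_cases ha : (M : ℤ) ∣ a
    · rw [if_pos ha, coeff_one, if_pos rfl]
      rw [show (Finset.Icc (-((0 : ℕ) : ℤ)) ((0 : ℕ) : ℤ)).filter
        (fun z : ℤ => z ^ 2 = ((0 : ℕ) : ℤ) ∧ (M : ℤ) ∣ z - a) = {0} from ?_, Finset.sum_singleton]
      ext z
      simp only [Finset.mem_filter, Finset.mem_Icc, Finset.mem_singleton]
      constructor
      · rintro ⟨⟨h1, h2⟩, -⟩
        push_cast at h1 h2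
        omega
      · rintro rfl
        refine ⟨⟨by simp, by simp⟩, by simp, ?_⟩
        rw [zero_sub]
        exact (dvd_neg).2 ha
    · rw [if_neg ha, map_zero]
      apply Finset.sum_eq_zero
      intro z hz
      exfalso
      simp only [Finset.mem_filter, Finset.mem_Icc] at hz
      obtain ⟨⟨h1, h2⟩, -, h3⟩ := hz
      have hz0 : z = 0 := by push_cast at h1 h2; omega
      rw [hz0, zero_sub] at h3
      exact ha ((dvd_neg).1 h3)
  · have hR : coeff n (if (M : ℤ) ∣ a then (1 : S) else 0) = 0 := by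
      split_ifs
      · rw [coeff_one, if_neg hn]
      · exact map_zero _
    rw [hR]
    refine Finset.sum_involution (fun z _ => -z) ?_ ?_ ?_ ?_
    · intro z _
      rfl
    · intro z hz _ h2
      simp only [Finset.mem_filter] at hz
      have hz0 : z = 0 := by omega
      apply hn
      have h3 := hz.2.1
      rw [hz0] at h3
      simpa using h3.symm
    · intro z hz
      simp only [Finset.mem_filter, Finset.mem_Icc] at hz ⊢
      obtain ⟨⟨h1, h2⟩, h3, c, hc⟩ := hz
      obtain ⟨d, hd⟩ := h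
      exact ⟨⟨by omega, by omega⟩, by rw [neg_sq]; exact h3, -c - d, by linear_combination -hc - hd⟩
    · intro z _
      exact neg_neg z

theorem four_eq (f : S) : f ^ 4 = PowerSeries.expand 4 (by norm_num) f :=
  pow_eq_expand' 4 2 (by norm_num) (by norm_num) f

theorem th_double (M : ℕ) (c : ℤ) : th (2 * M) (2 * c) = th M c ^ 4 := by
  classical
  rw [four_eq]
  ext n
  rw [coeff_expand, coeff_th _ _ n n le_rfl]
  split_ifs with h4
  · obtain ⟨m, rfl⟩ := h4
    rw [Nat.mul_div_cancel_left m (by norm_num), coeff_th _ _ m m le_rfl]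
    refine Finset.sum_bij' (fun z _ => z / 2) (fun z _ => 2 * z) ?_ ?_ ?_ ?_ ?_
    · intro z hz
      simp only [Finset.mem_filter, Finset.mem_Icc] at hz ⊢
      obtain ⟨⟨h1, h2⟩, h3, d, hd⟩ := hz
      push_cast at hd h3
      have hz2 : z = 2 * (c + M * d) := by linear_combination hd
      rw [hz2, Int.mul_ediv_cancel_left _ (by norm_num)]
      have h5 : (c + M * d) ^ 2 = (m : ℤ) := by
        rw [hz2] at h3
        have : 4 * (c + M * d) ^ 2 = 4 * (m : ℤ) := by linear_combination h3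
        omega
      exact ⟨bound h5.le, h5, d, by ring⟩
    · intro z hz
      simp only [Finset.mem_filter, Finset.mem_Icc] at hz ⊢
      obtain ⟨⟨h1, h2⟩, h3, d, hd⟩ := hz
      have h5 : (2 * z) ^ 2 = ((4 * m : ℕ) : ℤ) := by push_cast; rw [← h3]; ring
      exact ⟨bound h5.le, h5, d, by push_cast; linear_combination 2 * hd⟩
    · intro z hz
      simp only [Finset.mem_filter, Finset.mem_Icc] at hz
      obtain ⟨⟨h1, h2⟩, h3, d, hd⟩ := hz
      push_cast at hd
      have hz2 : z = 2 * (c + M * d) := by linear_combination hd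
      omega
    · intro z _
      omega
    · intro z _; rfl
  · apply Finset.sum_eq_zero
    intro z hz
    exfalso
    simp only [Finset.mem_filter, Finset.mem_Icc] at hz
    obtain ⟨-, h3, d, hd⟩ := hz
    push_cast at hd
    apply h4
    have hz2 : z = 2 * (c + M * d) := by linear_combination hd
    have : (4 : ℤ) ∣ (n : ℤ) := ⟨(c + M * d) ^ 2, by rw [← h3, hz2]; ring⟩
    exact_mod_cast this

theorem coeff_th_zero {n : ℕ} {c : ℤ} (hn : 1 ≤ n) (hc : c % 2 = 1) : coeff 0 (th (2 ^ n) c) = 0 := by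
  rw [coeff_th _ _ 0 0 le_rfl]
  apply Finset.sum_eq_zero
  intro z hz
  exfalso
  simp only [Finset.mem_filter, Finset.mem_Icc] at hz
  obtain ⟨⟨h1, h2⟩, -, d, hd⟩ := hz
  have hz0 : z = 0 := by push_cast at h1 h2; omega
  obtain ⟨m, rfl⟩ : ∃ m, n = m + 1 := ⟨n - 1, by omega⟩
  push_cast at hd
  rw [hz0, pow_succ] at hd
  have : c = 2 * (-(2 ^ m * d)) := by linear_combination -hd
  omega

theorem coeff_th_one {n : ℕ} {c : ℤ} (hn : 2 ≤ n) (hc : c % 4 = 1) :
    coeff 1 (th (2 ^ n) c) = if (2 ^ n : ℤ) ∣ c - 1 then 1 else 0 := by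
  classical
  rw [coeff_th _ _ 1 1 le_rfl]
  obtain ⟨m, rfl⟩ : ∃ m, n = m + 2 := ⟨n - 2, by omega⟩
  split_ifs with h
  · rw [show (Finset.Icc (-((1 : ℕ) : ℤ)) ((1 : ℕ) : ℤ)).filter
        (fun z : ℤ => z ^ 2 = ((1 : ℕ) : ℤ) ∧ ((2 ^ (m + 2) : ℕ) : ℤ) ∣ z - c) = {1} from ?_,
      Finset.sum_singleton]
    ext z
    simp only [Finset.mem_filter, Finset.mem_Icc, Finset.mem_singleton]
    constructor
    · rintro ⟨⟨h1, h2⟩, h3, d, hd⟩
      push_cast at h1 h2 h3 hd
      have h5 : z = -1 ∨ z = 0 ∨ z = 1 := by omega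
      rcases h5 with rfl | rfl | rfl
      · exfalso
        rw [pow_add] at hd
        have : c = -1 - 4 * (2 ^ m * d) := by linear_combination -hd
        omega
      · norm_num at h3
      · rfl
    · rintro rfl
      refine ⟨⟨by norm_num, by norm_num⟩, by norm_num, ?_⟩
      push_cast
      have e : (1 : ℤ) - c = -(c - 1) := by ring
      rw [e]
      exact (dvd_neg).2 h
  · apply Finset.sum_eq_zero
    intro z hz
    exfalso
    simp only [Finset.mem_filter, Finset.mem_Icc] at hz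
    obtain ⟨⟨h1, h2⟩, h3, h4⟩ := hz
    push_cast at h1 h2 h3 h4
    have h5 : z = -1 ∨ z = 0 ∨ z = 1 := by omega
    rcases h5 with rfl | rfl | rfl
    · obtain ⟨d, hd⟩ := h4
      rw [pow_add] at hd
      have : c = -1 - 4 * (2 ^ m * d) := by linear_combination -hd
      omega
    · norm_num at h3
    · apply h
      have e : c - 1 = -((1 : ℤ) - c) := by ring
      rw [e]
      exact (dvd_neg).2 h4

/-- the cross relation -/
theorem cross (n : ℕ) (a b α β : ℤ) (hα : 2 * α = a + b + 2 ^ n)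
    (hβ : 2 * β = a - b - 2 ^ n) :
    th (2 ^ (n + 1)) a * th (2 ^ (n + 1)) (b + 2 ^ n) +
      th (2 ^ (n + 1)) (a + 2 ^ n) * th (2 ^ (n + 1)) b =
      (th (2 ^ n) α * th (2 ^ n) β) ^ 2 := by
  classical
  have key : ∀ (c : ℤ) (N : ℕ), ∀ m ≤ N, coeff m (th (2 ^ (n + 1)) c) =
      ∑ _z ∈ ((Finset.Icc (-(N : ℤ)) (N : ℤ)).filter
        (fun z : ℤ => (2 ^ (n + 1) : ℤ) ∣ z - c)).filter (fun z : ℤ => z ^ 2 = (m : ℤ)),
          (1 : ZMod 2) := by
    intro c N m hm
    rw [coeff_th _ _ N m hm, Finset.filter_filter]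
    refine Finset.sum_congr ?_ fun _ _ => rfl
    ext z
    simp only [Finset.mem_filter]
    push_cast
    tauto
  have key2 : ∀ (c : ℤ) (N : ℕ), ∀ m ≤ N, coeff m (th (2 ^ n) c ^ 2) =
      ∑ _z ∈ ((Finset.Icc (-(N : ℤ)) (N : ℤ)).filter
        (fun z : ℤ => (2 ^ n : ℤ) ∣ z - c)).filter (fun z : ℤ => 2 * z ^ 2 = (m : ℤ)),
          (1 : ZMod 2) := by
    intro c N m hm
    rw [coeff_th_sq _ _ N m hm, Finset.filter_filter]
    refine Finset.sum_congr ?_ fun _ _ => rfl
    ext z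
    simp only [Finset.mem_filter]
    push_cast
    tauto
  ext N
  rw [mul_pow, map_add,
    coeff_prod _ _ N _ _ (fun z => z ^ 2) (fun z => z ^ 2) (fun z _ => by positivity)
      (fun z _ => by positivity) (key a N) (key (b + 2 ^ n) N),
    coeff_prod _ _ N _ _ (fun z => z ^ 2) (fun z => z ^ 2) (fun z _ => by positivity)
      (fun z _ => by positivity) (key (a + 2 ^ n) N) (key b N),
    coeff_prod _ _ N _ _ (fun z => 2 * z ^ 2) (fun z => 2 * z ^ 2) (fun z _ => by positivity)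
      (fun z _ => by positivity) (key2 α N) (key2 β N)]
  have hp : (0 : ℤ) < 2 ^ n := by positivity
  have e1 : (2 : ℤ) ^ (n + 1) = 2 * 2 ^ n := by ring
  rw [e1]
  generalize (2 : ℤ) ^ n = h at *
  rw [← Finset.sum_union]
  · refine Finset.sum_bij' (fun x _ => ((x.1 + x.2) / 2, (x.1 - x.2) / 2))
      (fun x _ => (x.1 + x.2, x.1 - x.2)) ?_ ?_ ?_ ?_ ?_
    · rintro ⟨z, w⟩ hx
      simp only [Finset.mem_union, Finset.mem_filter, Finset.mem_product, Finset.mem_Icc] at hx ⊢
      obtain ⟨l, l', hl, h3, h6, h7⟩ : ∃ l l' : ℤ, (l + l') % 2 = 1 ∧ z - a = h * l ∧ w - b = h * l' ∧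
          z ^ 2 + w ^ 2 = N := by
        rcases hx with ⟨⟨⟨⟨h1, h2⟩, ⟨l, h3⟩⟩, ⟨h4, h5⟩, ⟨m, h6⟩⟩, h7⟩ |
          ⟨⟨⟨⟨h1, h2⟩, ⟨l, h3⟩⟩, ⟨h4, h5⟩, ⟨m, h6⟩⟩, h7⟩
        · exact ⟨2 * l, 2 * m + 1, by omega, by linear_combination h3, by linear_combination h6, h7⟩
        · exact ⟨2 * l + 1, 2 * m, by omega, by linear_combination h3, by linear_combination h6, h7⟩
      obtain ⟨s, hs⟩ : ∃ s, l + l' = 2 * s + 1 := ⟨(l + l') / 2, by omega⟩
      have hp' : z + w = 2 * (α + h * s) := by linear_combination h3 + h6 + h * hs - hα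
      have hq' : z - w = 2 * (β + h * (l - s)) := by
        linear_combination h3 - h6 - h * hs - hβ
      rw [hp', hq', Int.mul_ediv_cancel_left _ (by norm_num), Int.mul_ediv_cancel_left _ (by norm_num)]
      have e0 : 2 * (α + h * s) ^ 2 + 2 * (β + h * (l - s)) ^ 2 = N := by
        have e2 : 4 * (α + h * s) ^ 2 + 4 * (β + h * (l - s)) ^ 2 = 2 * (N : ℤ) := by
          rw [← h7]
          linear_combination -(z + w + 2 * (α + h * s)) * hp' - (z - w + 2 * (β + h * (l - s))) * hq'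
        omega
      have q1 := sq_nonneg (α + h * s)
      have q2 := sq_nonneg (β + h * (l - s))
      have b1 := bound (z := α + h * s) (N := N) (by linarith)
      have b2 := bound (z := β + h * (l - s)) (N := N) (by linarith)
      exact ⟨⟨⟨b1, s, by ring⟩, b2, l - s, by ring⟩, e0⟩
    · rintro ⟨u, v⟩ hx
      simp only [Finset.mem_union, Finset.mem_filter, Finset.mem_product, Finset.mem_Icc] at hx ⊢
      obtain ⟨⟨⟨⟨h1, h2⟩, ⟨l, h3⟩⟩, ⟨h4, h5⟩, ⟨m, h6⟩⟩, h7⟩ := hx
      have e3 : (u + v) ^ 2 + (u - v) ^ 2 = N := by rw [← h7]; ring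
      have b1 := bound (z := u + v) (N := N) (by nlinarith [sq_nonneg (u - v)])
      have b2 := bound (z := u - v) (N := N) (by nlinarith [sq_nonneg (u + v)])
      have hab : α + β = a := by omega
      have hab' : α - β = b + h := by omega
      rcases Int.even_or_odd' (l + m) with ⟨c, hc | hc⟩
      · left
        refine ⟨⟨⟨b1, c, ?_⟩, b2, c - m, ?_⟩, e3⟩
        · linear_combination h3 + h6 + h * hc + hab
        · have : l - m = 2 * (c - m) := by omega
          linear_combination h3 - h6 + h * this + hab'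
      · right
        refine ⟨⟨⟨b1, c, ?_⟩, b2, c - m + 1, ?_⟩, e3⟩
        · linear_combination h3 + h6 + h * hc + hab
        · have : l - m = 2 * (c - m) + 1 := by omega
          linear_combination h3 - h6 + h * this + hab'
    · rintro ⟨z, w⟩ hx
      simp only [Finset.mem_union, Finset.mem_filter, Finset.mem_product, Finset.mem_Icc] at hx ⊢
      obtain ⟨l, l', hl, h3, h6, h7⟩ : ∃ l l' : ℤ, (l + l') % 2 = 1 ∧ z - a = h * l ∧ w - b = h * l' ∧
          z ^ 2 + w ^ 2 = N := by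
        rcases hx with ⟨⟨⟨⟨h1, h2⟩, ⟨l, h3⟩⟩, ⟨h4, h5⟩, ⟨m, h6⟩⟩, h7⟩ |
          ⟨⟨⟨⟨h1, h2⟩, ⟨l, h3⟩⟩, ⟨h4, h5⟩, ⟨m, h6⟩⟩, h7⟩
        · exact ⟨2 * l, 2 * m + 1, by omega, by linear_combination h3, by linear_combination h6, h7⟩
        · exact ⟨2 * l + 1, 2 * m, by omega, by linear_combination h3, by linear_combination h6, h7⟩
      obtain ⟨s, hs⟩ : ∃ s, l + l' = 2 * s + 1 := ⟨(l + l') / 2, by omega⟩
      have hp' : z + w = 2 * (α + h * s) := by linear_combination h3 + h6 + h * hs - hα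
      have hq' : z - w = 2 * (β + h * (l - s)) := by
        linear_combination h3 - h6 - h * hs - hβ
      simp only [Prod.mk.injEq]
      rw [hp', hq', Int.mul_ediv_cancel_left _ (by norm_num), Int.mul_ediv_cancel_left _ (by norm_num)]
      constructor <;> omega
    · rintro ⟨u, v⟩ _
      simp only [Prod.mk.injEq]
      constructor <;> omega
    · rintro ⟨z, w⟩ _
      rfl
  · rw [Finset.disjoint_left]
    rintro ⟨z, w⟩ h1 h2
    simp only [Finset.mem_filter, Finset.mem_product, Finset.mem_Icc] at h1 h2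
    obtain ⟨⟨⟨-, ⟨l, h3⟩⟩, -⟩, -⟩ := h1
    obtain ⟨⟨⟨-, ⟨m, h4⟩⟩, -⟩, -⟩ := h2
    have h5 : h * (2 * (l - m) - 1) = 0 := by linear_combination h4 - h3
    rcases mul_eq_zero.1 h5 with h6 | h6 <;> omega

/-- `Db` as a sum of theta functions -/
theorem Db_sum' (b : ℤ) (hb : b % 2 = 1) (m : ℕ) :
    (Db : S) = ∑ j ∈ Finset.range (2 ^ m), th (2 ^ (m + 2)) ((1 + 4 * (j : ℤ)) * b) := by
  have hodd : ∀ j : ℤ, Odd ((1 + 4 * j) * b) := fun j => by
    apply Odd.mul ⟨2 * j, by ring⟩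
    exact ⟨b / 2, by omega⟩
  induction m with
  | zero =>
    have := D1.four ((1 + 4 * ((0 : ℕ) : ℤ)) * b) (hodd _)
    simp only [pow_zero, Finset.range_one, Finset.sum_singleton]
    exact this.symm
  | succ m ih =>
    rw [pow_succ, mul_two, Finset.sum_range_add, ← Finset.sum_add_distrib, ih]
    apply Finset.sum_congr rfl
    intro j _
    have := D1.split (m + 2) ((1 + 4 * (j : ℤ)) * b)
    rw [← this, show m + 1 + 2 = m + 2 + 1 by ring]
    congr 1
    apply th_congr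
    obtain ⟨c, hc⟩ : ∃ c, b = 2 * c + 1 := ⟨b / 2, by omega⟩
    refine ⟨-c, ?_⟩
    rw [hc]
    push_cast
    ring

end Pool.Agent.J4H80.IG
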