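import Pool.Agent.J4H80.IG.Wt

set_option autoImplicit false

/-!
# The tower of algebras generated by the theta functions of level `2 ^ n`
-/

namespace Pool.Agent.J4H80.IG

open PowerSeries Pool.Agent.TH693.PP Pool.Agent.H397R2.PP Pool.Agent.TH693.QQ

/-- the theta function with characteristic `c` at all cusps -/
noncomputable def A (n : ℕ) (c : ℤ) : ℤ → L := fun t => algebraMap S L (th (2 ^ n) (c * (1 + 4 * t)))

/-- the algebra of level `2 ^ n` -/
noncomputable def V (n : ℕ) : Subalgebra K (ℤ → L) :=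
  Algebra.adjoin K (Set.range fun i : ℤ => A n (1 + 4 * i))

theorem two0 : (2 : L) = 0 := by
  have h := congrArg (algebraMap S L) two_zero
  rw [map_ofNat, map_zero] at h
  exact h

theorem A_congr {n : ℕ} {c c' : ℤ} (h : (2 ^ n : ℤ) ∣ c - c') : A n c = A n c' := by
  funext t
  unfold A
  congr 1
  apply th_congr
  push_cast
  have e : c * (1 + 4 * t) - c' * (1 + 4 * t) = (c - c') * (1 + 4 * t) := by ring
  rw [e]
  exact h.mul_right _

theorem A_neg (n : ℕ) (c : ℤ) : A n (-c) = A n c := by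
  funext t
  unfold A
  rw [neg_mul, th_neg]

theorem A_split (n : ℕ) (c : ℤ) : A n c = A (n + 1) c + A (n + 1) (c + 2 ^ n) := by
  funext t
  rw [Pi.add_apply]
  unfold A
  rw [← map_add, ← D1.split n (c * (1 + 4 * t))]
  congr 2
  apply th_congr
  refine ⟨-2 * t, ?_⟩
  push_cast
  ring

theorem A_double (n : ℕ) (c : ℤ) : A (n + 1) (2 * c) = A n c ^ 4 := by
  funext t
  rw [Pi.pow_apply]
  unfold A
  rw [← map_pow, ← th_double, mul_assoc]
  congr 2
  rw [pow_succ, mul_comm]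

theorem A_one (c : ℤ) : A 1 c = if (2 : ℤ) ∣ c then 1 else 0 := by
  funext t
  have h1 : th (2 ^ 1) (c * (1 + 4 * t)) = if (2 : ℤ) ∣ c then 1 else 0 := by
    rw [th_sym]
    · congr 1
      push_cast
      apply propext
      constructor
      · intro h
        rcases Int.even_or_odd' c with ⟨d, rfl | rfl⟩
        · exact ⟨d, rfl⟩
        · exfalso
          obtain ⟨e, he⟩ := h
          have : (2 * d + 1) * (1 + 4 * t) = 2 * (d + 4 * d * t + 2 * t) + 1 := by ring
          omega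
      · intro h
        exact h.mul_right _
    · push_cast
      exact ⟨_, rfl⟩
  unfold A
  rw [h1]
  split_ifs
  · rw [map_one]; rfl
  · rw [map_zero]; rfl

theorem A_two {c : ℤ} (hc : c % 2 = 1) : A 2 c = algebraMap K (ℤ → L) RatFunc.X := by
  funext t
  unfold A
  have h : th (2 ^ 2) (c * (1 + 4 * t)) = Db := by
    apply D1.four
    apply Odd.mul (Int.odd_iff.2 hc)
    exact ⟨2 * t, by ring⟩
  rw [h, Pi.algebraMap_apply, algKL, io'_X]
  rfl

theorem A_prod (n : ℕ) (hn : 1 ≤ n) (c : ℤ) : A (n + 1) c * A (n + 1) (c + 2 ^ n) =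
    algebraMap K (ℤ → L) (RatFunc.X ^ 2 ^ (2 * n - 1)) * A n (c + 2 ^ (n - 1)) ^ 2 := by
  funext t
  rw [Pi.mul_apply, Pi.mul_apply, Pi.pow_apply, Pi.algebraMap_apply, algKL, map_pow, io'_X]
  unfold A dL
  obtain ⟨m, rfl⟩ : ∃ m, n = m + 1 := ⟨n - 1, by omega⟩
  have h1 : th (2 ^ (m + 1 + 1)) ((c + 2 ^ (m + 1)) * (1 + 4 * t)) =
      th (2 ^ (m + 1 + 1)) (c * (1 + 4 * t) + 2 ^ (m + 1)) := by
    apply th_congr
    refine ⟨2 * t, ?_⟩
    push_cast
    ring
  have h2 : th (2 ^ (m + 1)) ((c + 2 ^ (m + 1 - 1)) * (1 + 4 * t)) =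
      th (2 ^ (m + 1)) (c * (1 + 4 * t) + 2 ^ (m + 1 - 1)) := by
    apply th_congr
    refine ⟨2 * t, ?_⟩
    rw [Nat.add_sub_cancel]
    push_cast
    ring
  rw [h1, h2, ← map_mul, D1.prod _ _ hn, map_mul, map_pow, map_pow]

theorem A_cross (n : ℕ) (hn : 1 ≤ n) (a α β : ℤ) (hα : 2 * α = a + 1 + 2 ^ n)
    (hβ : 2 * β = a - 1 - 2 ^ n) :
    A (n + 1) a * A n 1 = A n a * A (n + 1) 1 + (A n α * A n β) ^ 2 := by
  obtain ⟨m, rfl⟩ : ∃ m, n = m + 1 := ⟨n - 1, by omega⟩
  have h0 : A (m + 1 + 1) a * A (m + 1 + 1) (1 + 2 ^ (m + 1)) +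
      A (m + 1 + 1) (a + 2 ^ (m + 1)) * A (m + 1 + 1) 1 = (A (m + 1) α * A (m + 1) β) ^ 2 := by
    funext t
    rw [Pi.add_apply, Pi.mul_apply, Pi.mul_apply, Pi.pow_apply, Pi.mul_apply]
    unfold A
    have h1 : ∀ c : ℤ, th (2 ^ (m + 1 + 1)) ((c + 2 ^ (m + 1)) * (1 + 4 * t)) =
        th (2 ^ (m + 1 + 1)) (c * (1 + 4 * t) + 2 ^ (m + 1)) := by
      intro c
      apply th_congr
      refine ⟨2 * t, ?_⟩
      push_cast
      ring
    have h2 : th (2 ^ (m + 1)) (α * (1 + 4 * t)) =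
        th (2 ^ (m + 1)) (α * (1 + 4 * t) - 2 ^ (m + 2) * t) := by
      apply th_congr
      refine ⟨2 * t, ?_⟩
      push_cast
      ring
    have h3 : th (2 ^ (m + 1)) (β * (1 + 4 * t)) =
        th (2 ^ (m + 1)) (β * (1 + 4 * t) + 2 ^ (m + 2) * t) := by
      apply th_congr
      refine ⟨-2 * t, ?_⟩
      push_cast
      ring
    rw [h1, h1, h2, h3, ← map_mul, ← map_mul, ← map_mul, ← map_add, ← map_pow, one_mul]
    congr 1
    apply cross
    · linear_combination (1 + 4 * t) * hα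
    · linear_combination (1 + 4 * t) * hβ
  have h4 : A (m + 1 + 1) (a + 2 ^ (m + 1)) = A (m + 1) a + A (m + 1 + 1) a := by
    rw [A_split (m + 1) a]
    funext t
    simp only [Pi.add_apply]
    linear_combination -A (m + 1 + 1) a t * two0
  have h5 : A (m + 1 + 1) (1 + 2 ^ (m + 1)) = A (m + 1) 1 + A (m + 1 + 1) 1 := by
    rw [A_split (m + 1) 1]
    funext t
    simp only [Pi.add_apply]
    linear_combination -A (m + 1 + 1) 1 t * two0
  rw [h4, h5] at h0
  funext t
  have h6 := congrFun h0 t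
  simp only [Pi.add_apply, Pi.mul_apply, Pi.pow_apply] at h6 ⊢
  linear_combination h6 - (A (m + 1 + 1) a t * A (m + 1 + 1) 1 t + A (m + 1) a t * A (m + 1 + 1) 1 t) * two0

/-- no solution of the Artin-Schreier equation -/
theorem no_root (κ : K) (h : κ ^ 2 + RatFunc.X * κ + RatFunc.X ^ 10 = 0) : False := by
  have h2 : (2 : K) = 0 := by
    have := congrArg (algebraMap (ZMod 2) K) (show (2 : ZMod 2) = 0 from rfl)
    rwa [map_ofNat, map_zero] at this
  have hX : (RatFunc.X : K) ≠ 0 := RatFunc.X_ne_zero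
  set y : K := κ * (RatFunc.X)⁻¹ + RatFunc.X ^ 4 + RatFunc.X ^ 2 + RatFunc.X with hy
  have e1 : (RatFunc.X : K) * (RatFunc.X)⁻¹ = 1 := mul_inv_cancel₀ hX
  have h1 : y ^ 2 + y = RatFunc.X := by
    rw [hy]
    generalize (RatFunc.X : K)⁻¹ = i at *
    generalize (RatFunc.X : K) = x at *
    linear_combination i ^ 2 * h - (κ * i + (x * i + 1) * x ^ 8) * e1 +
      (x ^ 8 + x ^ 4 + x ^ 2 + κ * i * (x ^ 4 + x ^ 2 + x) + x ^ 6 + x ^ 5 + x ^ 3 - x ^ 8) * h2
  have h3 : IsIntegral (Polynomial (ZMod 2)) y := by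
    refine ⟨Polynomial.X ^ 2 + (Polynomial.C 1 * Polynomial.X + Polynomial.C (-Polynomial.X)), ?_, ?_⟩
    · apply Polynomial.monic_X_pow_add
      exact (Polynomial.degree_linear_le).trans_lt (by norm_num)
    · rw [Polynomial.eval₂_add, Polynomial.eval₂_add, Polynomial.eval₂_mul,
        Polynomial.eval₂_pow, Polynomial.eval₂_X, Polynomial.eval₂_C, Polynomial.eval₂_C, map_one,
        map_neg, RatFunc.algebraMap_X]
      linear_combination h1
  obtain ⟨q, hq⟩ := IsIntegrallyClosed.isIntegral_iff.1 h3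
  have h4 : q * (q + Polynomial.C 1) = Polynomial.X := by
    apply IsFractionRing.injective (Polynomial (ZMod 2)) K
    rw [map_mul, map_add, Polynomial.C_1, map_one, hq, RatFunc.algebraMap_X]
    linear_combination h1
  have hq0 : q ≠ 0 := by
    rintro rfl
    rw [zero_mul] at h4
    exact Polynomial.X_ne_zero h4.symm
  have hq1 : q + Polynomial.C 1 ≠ 0 := by
    intro h5
    rw [h5, mul_zero] at h4
    exact Polynomial.X_ne_zero h4.symm
  have h5 := congrArg Polynomial.natDegree h4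
  rw [Polynomial.natDegree_mul hq0 hq1, Polynomial.natDegree_add_C, Polynomial.natDegree_X] at h5
  omega

end Pool.Agent.J4H80.IG
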