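import Pool.Agent.J4H80.IG.Tower

set_option autoImplicit false

/-!
# The tower of algebras: the induction
-/

namespace Pool.Agent.J4H80.IG

open PowerSeries Pool.Agent.TH693.PP Pool.Agent.H397R2.PP Pool.Agent.TH693.QQ

/-- the properties of the algebra of level `2 ^ n` -/
structure Lev (n : ℕ) : Prop where
  fin : FiniteDimensional K (V n)
  rk : Module.finrank K (V n) ≤ 2 ^ (n - 2)
  van : ∀ u ∈ V n, ∀ t, u t = 0 → u = 0
  mem : ∀ c, A n c ∈ V n

theorem V_per {n : ℕ} (hn : 2 ≤ n) {u : ℤ → L} (hu : u ∈ V n) :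
    ∀ t t' : ℤ, (2 ^ (n - 2) : ℤ) ∣ t - t' → u t = u t' := by
  obtain ⟨m, rfl⟩ : ∃ m, n = m + 2 := ⟨n - 2, by omega⟩
  rw [Nat.add_sub_cancel]
  unfold V at hu
  induction hu using Algebra.adjoin_induction with
  | mem x hx =>
    obtain ⟨i, rfl⟩ := hx
    intro t t' ⟨d, hd⟩
    refine congrArg (algebraMap S L) ?_
    apply th_congr
    refine ⟨(1 + 4 * i) * d, ?_⟩
    push_cast
    linear_combination 4 * (1 + 4 * i) * hd
  | algebraMap r => intro t t' _; rfl
  | add x y _ _ hx hy =>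
    intro t t' h
    rw [Pi.add_apply, Pi.add_apply, hx t t' h, hy t t' h]
  | mul x y _ _ hx hy =>
    intro t t' h
    rw [Pi.mul_apply, Pi.mul_apply, hx t t' h, hy t t' h]

theorem V_shift {n : ℕ} (s : ℤ) {u : ℤ → L} (hu : u ∈ V n) :
    (fun t => u (t + s + 4 * t * s)) ∈ V n := by
  unfold V at hu
  induction hu using Algebra.adjoin_induction with
  | mem x hx =>
    obtain ⟨i, rfl⟩ := hx
    have : (fun t => A n (1 + 4 * i) (t + s + 4 * t * s)) = A n (1 + 4 * (i + s + 4 * i * s)) := by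
      funext t
      unfold A
      congr 2
      ring
    rw [this]
    exact Algebra.subset_adjoin ⟨_, rfl⟩
  | algebraMap r => exact (V n).algebraMap_mem r
  | add x y _ _ hx hy => exact (V n).add_mem hx hy
  | mul x y _ _ hx hy => exact (V n).mul_mem hx hy

theorem V_mono {n : ℕ} (hn : 2 ≤ n) : V n ≤ V (n + 1) := by
  obtain ⟨m, rfl⟩ : ∃ m, n = m + 2 := ⟨n - 2, by omega⟩
  apply Algebra.adjoin_le
  rintro _ ⟨i, rfl⟩
  simp only [SetLike.mem_coe]
  rw [A_split]
  refine (V _).add_mem (Algebra.subset_adjoin ⟨i, rfl⟩) (Algebra.subset_adjoin ⟨i + 2 ^ m, ?_⟩)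
  simp only
  congr 1
  ring

/-- inverses -/
theorem Lev.inv {n : ℕ} (h : Lev n) {u : ℤ → L} (hu : u ∈ V n) (h0 : u ≠ 0) :
    ∃ v ∈ V n, u * v = 1 := by
  have := h.fin
  let f : V n →ₗ[K] V n := LinearMap.mulLeft K (⟨u, hu⟩ : V n)
  have hf : Function.Injective f := by
    rw [← LinearMap.ker_eq_bot, LinearMap.ker_eq_bot']
    rintro ⟨w, hw⟩ hw0
    have h1 : u * w = 0 := congrArg Subtype.val hw0
    have h2 : w 0 = 0 := by
      have h3 := congrFun h1 0
      rw [Pi.mul_apply, Pi.zero_apply] at h3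
      rcases mul_eq_zero.1 h3 with h4 | h4
      · exact absurd (h.van u hu 0 h4) h0
      · exact h4
    exact Subtype.ext (h.van w hw 0 h2)
  have hs : Function.Surjective f := LinearMap.surjective_of_injective hf
  obtain ⟨⟨v, hv⟩, hv1⟩ := hs 1
  exact ⟨v, hv, congrArg Subtype.val hv1⟩

theorem A_ne {n : ℕ} (hn : 2 ≤ n) {c : ℤ} (hc : c % 2 = 1) : A n c ≠ 0 := by
  obtain ⟨m, rfl⟩ : ∃ m, n = m + 2 := ⟨n - 2, by omega⟩
  have key : ∀ c : ℤ, c % 4 = 1 → A (m + 2) c ≠ 0 := by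
    intro c hc h
    -- choose `t` with `c * (1 + 4 t) ≡ 1`
    have hcop : IsCoprime c (2 ^ (m + 2) : ℤ) := by
      apply IsCoprime.pow_right
      exact ⟨1, -(c / 2), by omega⟩
    obtain ⟨x, y, hxy⟩ := hcop
    have hx4 : x % 4 = 1 := by
      rw [pow_add] at hxy
      have h1 : x * c = 1 - 4 * (y * 2 ^ m) := by linear_combination hxy
      obtain ⟨d, hd⟩ : ∃ d, c = 4 * d + 1 := ⟨c / 4, by omega⟩
      rw [hd] at h1
      have h2 : x = 4 * (-(y * 2 ^ m) - x * d) + 1 := by linear_combination h1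
      omega
    obtain ⟨t, ht⟩ : ∃ t, x = 1 + 4 * t := ⟨x / 4, by omega⟩
    have h1 := congrFun h t
    unfold A at h1
    rw [Pi.zero_apply, map_eq_zero_iff _ inj] at h1
    have h2 : th (2 ^ (m + 2)) (c * (1 + 4 * t)) = th (2 ^ (m + 2)) 1 := by
      apply th_congr
      refine ⟨-y, ?_⟩
      push_cast
      rw [← ht]
      linear_combination hxy
    rw [h2] at h1
    have h3 := coeff_th_one (n := m + 2) (c := 1) (by omega) (by norm_num)
    rw [h1, sub_self, if_pos (dvd_zero _), map_zero] at h3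
    exact zero_ne_one h3
  rcases (by omega : c % 4 = 1 ∨ c % 4 = 3) with h | h
  · exact key c h
  · rw [← A_neg]
    exact key _ (by omega)

theorem lev_two : Lev 2 := by
  have hV : V 2 = ⊥ := by
    rw [eq_bot_iff]
    apply Algebra.adjoin_le
    rintro _ ⟨i, rfl⟩
    simp only [SetLike.mem_coe]
    rw [A_two (by omega)]
    exact (⊥ : Subalgebra K (ℤ → L)).algebraMap_mem _
  have hnt : Nontrivial (ℤ → L) := inferInstance
  refine ⟨?_, ?_, ?_, ?_⟩
  · rw [hV]
    infer_instance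
  · rw [hV, Subalgebra.finrank_bot]
    norm_num
  · intro u hu t h
    rw [hV, Algebra.mem_bot] at hu
    obtain ⟨r, rfl⟩ := hu
    rw [Pi.algebraMap_apply, algKL, map_eq_zero_iff _ io'_inj] at h
    rw [h, map_zero]
  · intro c
    rcases Int.even_or_odd' c with ⟨d, rfl | rfl⟩
    · rw [A_double, A_one]
      split_ifs
      · rw [one_pow]; exact one_mem _
      · rw [zero_pow (by norm_num)]; exact zero_mem _
    · rw [A_two (by omega)]
      exact (V 2).algebraMap_mem _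

section step

variable {n : ℕ} (hn : 2 ≤ n) (h : Lev n)

include hn h

/-- `B² = A B + c` -/
theorem quadB : ∃ c ∈ V n, A (n + 1) 1 ^ 2 = A n 1 * A (n + 1) 1 + c := by
  refine ⟨A (n + 1) 1 * A (n + 1) (1 + 2 ^ n), ?_, ?_⟩
  · rw [A_prod n (by omega)]
    exact (V n).mul_mem ((V n).algebraMap_mem _) ((V n).pow_mem (h.mem _) 2)
  · funext t
    have h1 := congrFun (A_split n 1) t
    simp only [Pi.add_apply, Pi.mul_apply, Pi.pow_apply] at h1 ⊢
    linear_combination -A (n + 1) 1 t * h1 - A (n + 1) 1 t * A (n + 1) (1 + 2 ^ n) t * two0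

theorem genB {a : ℤ} (ha : a % 2 = 1) : ∃ p ∈ V n, ∃ q ∈ V n, A (n + 1) a = p + q * A (n + 1) 1 ∧
    ∃ v ∈ V n, A n 1 * v = 1 ∧ q = v * A n a := by
  obtain ⟨v, hv, hv1⟩ := h.inv (h.mem 1) (A_ne hn (by norm_num))
  obtain ⟨m, rfl⟩ : ∃ m, n = m + 1 := ⟨n - 1, by omega⟩
  obtain ⟨d, rfl⟩ : ∃ d, a = 2 * d + 1 := ⟨a / 2, by omega⟩
  have h1 := A_cross (m + 1) (by omega) (2 * d + 1) (d + 1 + 2 ^ m) (d - 2 ^ m) (by ring) (by ring)
  refine ⟨v * (A (m + 1) (d + 1 + 2 ^ m) * A (m + 1) (d - 2 ^ m)) ^ 2, ?_, v * A (m + 1) (2 * d + 1), ?_,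
    ?_, v, hv, hv1, rfl⟩
  · exact (V _).mul_mem hv ((V _).pow_mem ((V _).mul_mem (h.mem _) (h.mem _)) 2)
  · exact (V _).mul_mem hv (h.mem _)
  · linear_combination v * h1 - A (m + 1 + 1) (2 * d + 1) * hv1

/-- the algebra of level `n + 1` is contained in `V n + V n * B` -/
theorem V_succ {u : ℤ → L} (hu : u ∈ V (n + 1)) :
    ∃ p ∈ V n, ∃ q ∈ V n, u = p + q * A (n + 1) 1 := by
  obtain ⟨c, hc, hc1⟩ := quadB hn h
  unfold V at hu
  induction hu using Algebra.adjoin_induction with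
  | mem x hx =>
    obtain ⟨i, rfl⟩ := hx
    obtain ⟨p, hp, q, hq, h1, -⟩ := genB hn h (a := 1 + 4 * i) (by omega)
    exact ⟨p, hp, q, hq, h1⟩
  | algebraMap r => exact ⟨_, (V n).algebraMap_mem r, 0, (V n).zero_mem, by ring⟩
  | add x y _ _ hx hy =>
    obtain ⟨p, hp, q, hq, rfl⟩ := hx
    obtain ⟨p', hp', q', hq', rfl⟩ := hy
    exact ⟨p + p', (V n).add_mem hp hp', q + q', (V n).add_mem hq hq', by ring⟩
  | mul x y _ _ hx hy =>
    obtain ⟨p, hp, q, hq, rfl⟩ := hx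
    obtain ⟨p', hp', q', hq', rfl⟩ := hy
    refine ⟨p * p' + q * q' * c, ?_, p * q' + q * p' + q * q' * A n 1, ?_, ?_⟩
    · exact (V n).add_mem ((V n).mul_mem hp hp') ((V n).mul_mem ((V n).mul_mem hq hq') hc)
    · exact (V n).add_mem ((V n).add_mem ((V n).mul_mem hp hq') ((V n).mul_mem hq hp'))
        ((V n).mul_mem ((V n).mul_mem hq hq') (h.mem 1))
    · linear_combination q * q' * hc1

theorem fin_succ : FiniteDimensional K (V (n + 1)) ∧ Module.finrank K (V (n + 1)) ≤ 2 ^ (n + 1 - 2) := by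
  have := h.fin
  let f : (V n × V n) →ₗ[K] (ℤ → L) :=
    { toFun := fun x => (x.1 : ℤ → L) + (x.2 : ℤ → L) * A (n + 1) 1
      map_add' := fun x y => by
        simp only [Prod.fst_add, Prod.snd_add, Subalgebra.coe_add]
        ring
      map_smul' := fun r x => by
        simp only [Prod.smul_fst, Prod.smul_snd, Subalgebra.coe_smul, RingHom.id_apply, smul_add,
          smul_mul_assoc] }
  have hle : Subalgebra.toSubmodule (V (n + 1)) ≤ LinearMap.range f := by
    intro u hu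
    obtain ⟨p, hp, q, hq, rfl⟩ := V_succ hn h hu
    exact ⟨(⟨p, hp⟩, ⟨q, hq⟩), rfl⟩
  have hfin : FiniteDimensional K (Subalgebra.toSubmodule (V (n + 1))) :=
    Submodule.finiteDimensional_of_le hle
  refine ⟨hfin, ?_⟩
  have h1 : Module.finrank K (V (n + 1)) ≤ Module.finrank K (LinearMap.range f) :=
    Submodule.finrank_mono hle
  have h2 := LinearMap.finrank_range_le f
  rw [Module.finrank_prod] at h2
  have h3 := h.rk
  obtain ⟨m, rfl⟩ : ∃ m, n = m + 2 := ⟨n - 2, by omega⟩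
  have e : m + 2 + 1 - 2 = m + 1 := by omega
  rw [e, pow_succ]
  rw [Nat.add_sub_cancel] at h3
  omega

theorem mem_succ (c : ℤ) : A (n + 1) c ∈ V (n + 1) := by
  rcases Int.even_or_odd' c with ⟨d, hd | hd⟩
  · rw [hd, A_double]
    exact (V _).pow_mem (V_mono hn (h.mem d)) 4
  · rcases (by omega : c % 4 = 1 ∨ c % 4 = 3) with h4 | h4
    · exact Algebra.subset_adjoin ⟨c / 4, by simp only; congr 1; omega⟩
    · rw [← A_neg]
      exact Algebra.subset_adjoin ⟨(-c) / 4, by simp only; congr 1; omega⟩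

end step

end Pool.Agent.J4H80.IG
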