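import Pool.Agent.J4H80.IG.Tower2

set_option autoImplicit false

/-!
# The algebras of the tower are fields
-/

namespace Pool.Agent.J4H80.IG

open PowerSeries Pool.Agent.TH693.PP Pool.Agent.H397R2.PP Pool.Agent.TH693.QQ

theorem one_ne_zero' : (1 : L) ≠ 0 := one_ne_zero

/-- the quadratic polynomial of `B` has no root in the algebra of level `n` -/
theorem no_root_level {n : ℕ} (hn : 2 ≤ n) (h : Lev n) (w : ℤ → L) (hw : w ∈ V n)
    (h0 : ∀ t, w t ^ 2 + A n 1 t * w t + A (n + 1) 1 t * A (n + 1) (1 + 2 ^ n) t = 0) : False := by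
  rcases Nat.eq_or_lt_of_le hn with rfl | hn3
  · -- level 2
    have hV : V 2 = ⊥ := by
      rw [eq_bot_iff]
      apply Algebra.adjoin_le
      rintro _ ⟨i, rfl⟩
      simp only [SetLike.mem_coe]
      rw [A_two (by omega)]
      exact (⊥ : Subalgebra K (ℤ → L)).algebraMap_mem _
    rw [hV, Algebra.mem_bot] at hw
    obtain ⟨κ, rfl⟩ := hw
    apply no_root κ
    have h1 := h0 0
    have h2 := congrFun (A_prod 2 (by norm_num) 1) 0
    rw [Pi.mul_apply, Pi.mul_apply, Pi.pow_apply] at h2
    have e1 : (2 + 1 : ℕ) = 3 := rfl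
    have e2 : (1 : ℤ) + 2 ^ (2 - 1) = 3 := by norm_num
    rw [h2, e2, A_two (c := 1) (by norm_num), A_two (c := 3) (by norm_num)] at h1
    rw [Pi.algebraMap_apply, Pi.algebraMap_apply, Pi.algebraMap_apply] at h1
    simp only [← map_pow, ← map_mul, ← map_add] at h1
    rw [map_eq_zero_iff _ (algebraMap K L).injective] at h1
    have e3 : 2 ^ (2 * 2 - 1) = 8 := by norm_num
    rw [e3] at h1
    linear_combination h1
  · -- level at least 3
    obtain ⟨m, rfl⟩ : ∃ m, n = m + 3 := ⟨n - 3, by omega⟩
    set B := A (m + 3 + 1) 1 with hB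
    set B' := A (m + 3 + 1) (1 + 2 ^ (m + 3)) with hB'
    set A1 := A (m + 3) 1 with hA1
    set s : ℤ := 2 ^ m with hs
    obtain ⟨R, hR, q, hq, hg, v1, hv1, hv11, hqv⟩ := genB hn h (a := 1 + 4 * s) (by omega)
    -- the shift
    have hv1s : (fun t => v1 (t + s + 4 * t * s)) ∈ V (m + 3) := V_shift s hv1
    have hws : (fun t => w (t + s + 4 * t * s)) ∈ V (m + 3) := V_shift s hw
    have hBs : ∀ t, B (t + s + 4 * t * s) = R t + v1 t * A (m + 3) (1 + 4 * s) t * B t := by
      intro t
      have h1 : B (t + s + 4 * t * s) = A (m + 3 + 1) (1 + 4 * s) t := by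
        rw [hB]
        refine congrArg (algebraMap S L) ?_
        congr 1
        ring
      rw [h1, hg, hqv]
      rfl
    have hAs : ∀ t, A1 (t + s + 4 * t * s) = A (m + 3) (1 + 4 * s) t := by
      intro t
      rw [hA1]
      refine congrArg (algebraMap S L) ?_
      congr 1
      ring
    have hv : ∀ t, A1 t * v1 t = 1 := fun t => congrFun hv11 t
    -- the function `e`
    let e : ℤ → L := fun t => (B t + w t) * v1 t
    have hsplit : ∀ t, A1 t = B t + B' t := fun t => congrFun (A_split (m + 3) 1) t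
    have he2 : ∀ t, e t ^ 2 + e t = 0 := by
      intro t
      change ((B t + w t) * v1 t) ^ 2 + (B t + w t) * v1 t = 0
      have h1 := h0 t
      have h2 := hv t
      have h3 := hsplit t
      change w t ^ 2 + A1 t * w t + B t * B' t = 0 at h1
      generalize B t = b at *
      generalize B' t = b' at *
      generalize A1 t = a at *
      generalize w t = x at *
      generalize v1 t = v at *
      linear_combination v ^ 2 * h1 + b * v ^ 2 * h3 - (b + x) * v * h2 + (b ^ 2 + b * x) * v ^ 2 * two0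
    -- `e ∘ σ + e` is in the algebra
    set hh : ℤ → L := R * (fun t => v1 (t + s + 4 * t * s)) +
      (fun t => w (t + s + 4 * t * s)) * (fun t => v1 (t + s + 4 * t * s)) + w * v1 with hhh
    have hhV : hh ∈ V (m + 3) :=
      (V _).add_mem ((V _).add_mem ((V _).mul_mem hR hv1s) ((V _).mul_mem hws hv1s))
        ((V _).mul_mem hw hv1)
    have hhe : ∀ t, hh t = e (t + s + 4 * t * s) + e t := by
      intro t
      change R t * v1 (t + s + 4 * t * s) + w (t + s + 4 * t * s) * v1 (t + s + 4 * t * s) +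
        w t * v1 t = (B (t + s + 4 * t * s) + w (t + s + 4 * t * s)) * v1 (t + s + 4 * t * s) +
        (B t + w t) * v1 t
      have h1 := hv (t + s + 4 * t * s)
      rw [hAs] at h1
      rw [hBs]
      linear_combination -v1 t * B t * h1 - B t * v1 t * two0
    have hh2 : ∀ t, hh t ^ 2 + hh t = 0 := by
      intro t
      rw [hhe]
      linear_combination he2 (t + s + 4 * t * s) + he2 t + e (t + s + 4 * t * s) * e t * two0
    -- so it is constant
    have hconst : ∀ t t', hh t = hh t' := by
      have h1 : hh 0 * (hh 0 + 1) = 0 := by linear_combination hh2 0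
      rcases mul_eq_zero.1 h1 with h2 | h2
      · have h3 := h.van hh hhV 0 h2
        intro t t'
        rw [h3]
        rfl
      · have h3 := h.van (hh + 1) ((V _).add_mem hhV (V _).one_mem) 0 h2
        intro t t'
        have h4 := congrFun h3 t
        have h5 := congrFun h3 t'
        simp only [Pi.add_apply, Pi.one_apply, Pi.zero_apply] at h4 h5
        linear_combination h4 - h5
    -- contradiction at `σ (σ 0)`
    set t2 : ℤ := s + s + 4 * s * s with ht2
    have h6 := hhe 0
    have h7 := hhe s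
    have h8 := hconst s 0
    have e0 : (0 : ℤ) + s + 4 * 0 * s = s := by ring
    rw [e0] at h6
    rw [← ht2] at h7
    have h9 : e t2 = e 0 := by
      linear_combination h6 - h7 + h8
    have hd : (2 ^ (m + 3 - 2) : ℤ) ∣ t2 - 0 := by
      refine ⟨1 + 2 * s, ?_⟩
      have e1 : m + 3 - 2 = m + 1 := by omega
      rw [e1, ht2, hs, pow_succ]
      ring
    have h10 : v1 t2 = v1 0 := V_per hn hv1 t2 0 hd
    have h11 : w t2 = w 0 := V_per hn hw t2 0 hd
    have h12 : B t2 = B' 0 := by
      rw [hB, hB']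
      refine congrArg (algebraMap S L) ?_
      apply th_congr
      refine ⟨s, ?_⟩
      rw [ht2, hs]
      push_cast
      ring
    change (B t2 + w t2) * v1 t2 = (B 0 + w 0) * v1 0 at h9
    rw [h10, h11, h12] at h9
    have h13 : (1 : L) = 0 := by
      linear_combination h9 - hv 0 + v1 0 * hsplit 0 + B 0 * v1 0 * two0
    exact one_ne_zero h13

theorem van_succ {n : ℕ} (hn : 2 ≤ n) (h : Lev n) (u : ℤ → L) (hu : u ∈ V (n + 1)) (t0 : ℤ)
    (h0 : u t0 = 0) : u = 0 := by
  obtain ⟨p, hp, q, hq, rfl⟩ := V_succ hn h hu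
  by_cases hq0 : q = 0
  · subst hq0
    rw [zero_mul, add_zero] at h0 ⊢
    exact h.van p hp t0 h0
  · exfalso
    obtain ⟨q', hq', hqq⟩ := h.inv hq hq0
    have hw : q' * p ∈ V n := (V n).mul_mem hq' hp
    have hw0 : (q' * p) t0 = A (n + 1) 1 t0 := by
      have h1 := congrFun hqq t0
      simp only [Pi.add_apply, Pi.mul_apply, Pi.one_apply] at h0 h1 ⊢
      linear_combination q' t0 * h0 - A (n + 1) 1 t0 * h1 - A (n + 1) 1 t0 * two0
    -- the quadratic equation
    have hz : (q' * p) ^ 2 + A n 1 * (q' * p) + A (n + 1) 1 * A (n + 1) (1 + 2 ^ n) ∈ V n := by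
      refine (V n).add_mem ((V n).add_mem ((V n).pow_mem hw 2) ((V n).mul_mem (h.mem 1) hw)) ?_
      rw [A_prod n (by omega)]
      exact (V n).mul_mem ((V n).algebraMap_mem _) ((V n).pow_mem (h.mem _) 2)
    have hz0 := h.van _ hz t0 (by
      have h1 := congrFun (A_split n 1) t0
      simp only [Pi.add_apply, Pi.mul_apply, Pi.pow_apply] at h1 hw0 ⊢
      rw [hw0, h1]
      linear_combination (A (n + 1) 1 t0 ^ 2 + A (n + 1) 1 t0 * A (n + 1) (1 + 2 ^ n) t0) * two0)
    exact no_root_level hn h (q' * p) hw fun t => congrFun hz0 t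

theorem lev (m : ℕ) : Lev (m + 2) := by
  induction m with
  | zero => exact lev_two
  | succ m ih =>
    have hn : 2 ≤ m + 2 := by omega
    obtain ⟨h1, h2⟩ := fin_succ hn ih
    exact ⟨h1, h2, van_succ hn ih, mem_succ hn ih⟩

end Pool.Agent.J4H80.IG
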