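import Pool.Agent.J4H80.IG.Tower3

set_option autoImplicit false

/-!
# The valence inequality
-/

namespace Pool.Agent.J4H80.IG

open PowerSeries Pool.Agent.TH693.PP Pool.Agent.H397R2.PP Pool.Agent.TH693.QQ

/-- the matrix of the theta functions at the cusps -/
noncomputable def MS (m : ℕ) : Matrix (Fin (2 ^ m)) (Fin (2 ^ m)) S :=
  fun i t => th (2 ^ (m + 2)) ((1 + 4 * ((i : ℕ) : ℤ)) * (1 + 4 * ((t : ℕ) : ℤ)))

/-- for each `i` there is one `t` with `(1 + 4 i) (1 + 4 t) ≡ 1` -/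
theorem exists_inv (m : ℕ) (i : Fin (2 ^ m)) : ∃ t : Fin (2 ^ m),
    (2 ^ (m + 2) : ℤ) ∣ (1 + 4 * ((i : ℕ) : ℤ)) * (1 + 4 * ((t : ℕ) : ℤ)) - 1 := by
  have hcop : IsCoprime (1 + 4 * ((i : ℕ) : ℤ)) (2 ^ (m + 2) : ℤ) := by
    apply IsCoprime.pow_right
    exact ⟨1, -(2 * ((i : ℕ) : ℤ)), by ring⟩
  obtain ⟨x, y, hxy⟩ := hcop
  have hx4 : x % 4 = 1 := by
    rw [pow_add] at hxy
    have h2 : x = 4 * (-(y * 2 ^ m) - x * ((i : ℕ) : ℤ)) + 1 := by linear_combination hxy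
    omega
  obtain ⟨t, ht⟩ : ∃ t, x = 1 + 4 * t := ⟨x / 4, by omega⟩
  have hp : (0 : ℤ) < 2 ^ m := by positivity
  have h1 := Int.emod_nonneg t hp.ne'
  have h2 := Int.emod_lt_of_pos t hp
  have h3 := Int.emod_add_mul_ediv t (2 ^ m)
  refine ⟨⟨(t % 2 ^ m).toNat, ?_⟩, ?_⟩
  · zify
    rw [Int.toNat_of_nonneg h1]
    exact h2
  · simp only
    rw [Int.toNat_of_nonneg h1]
    refine ⟨-y - (1 + 4 * ((i : ℕ) : ℤ)) * (t / 2 ^ m), ?_⟩
    have h4 : t % 2 ^ m = t - 2 ^ m * (t / 2 ^ m) := by linear_combination h3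
    rw [h4, pow_add]
    rw [pow_add, ht] at hxy
    linear_combination hxy

theorem inv_unique (m : ℕ) (i t t' : Fin (2 ^ m))
    (h : (2 ^ (m + 2) : ℤ) ∣ (1 + 4 * ((i : ℕ) : ℤ)) * (1 + 4 * ((t : ℕ) : ℤ)) - 1)
    (h' : (2 ^ (m + 2) : ℤ) ∣ (1 + 4 * ((i : ℕ) : ℤ)) * (1 + 4 * ((t' : ℕ) : ℤ)) - 1) : t = t' := by
  obtain ⟨c, hc⟩ := h
  obtain ⟨d, hd⟩ := h'
  have hcop : IsCoprime (2 ^ m : ℤ) (1 + 4 * ((i : ℕ) : ℤ)) := by
    apply IsCoprime.pow_left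
    exact ⟨-(2 * ((i : ℕ) : ℤ)), 1, by ring⟩
  have h1 : (2 ^ m : ℤ) ∣ ((t : ℕ) : ℤ) - ((t' : ℕ) : ℤ) := by
    refine hcop.dvd_of_dvd_mul_left ⟨c - d, ?_⟩
    rw [pow_add] at hc hd
    have : 4 * ((1 + 4 * ((i : ℕ) : ℤ)) * (((t : ℕ) : ℤ) - ((t' : ℕ) : ℤ))) =
      4 * (2 ^ m * (c - d)) := by linear_combination hc - hd
    exact mul_left_cancel₀ (by norm_num : (4 : ℤ) ≠ 0) this
  have h2 := t.2
  have h3 := t'.2
  have h4 : (((t : ℕ) : ℤ) - ((t' : ℕ) : ℤ)).natAbs < 2 ^ m := by omega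
  have h5 := Int.eq_zero_of_dvd_of_natAbs_lt_natAbs h1 (by
    rw [Int.natAbs_pow]
    simpa using h4)
  exact Fin.ext (by omega)

/-- the coefficient of `X` in the entries -/
theorem coeff_MS (m : ℕ) (i t : Fin (2 ^ m)) : coeff 1 (MS m i t) =
    if (2 ^ (m + 2) : ℤ) ∣ (1 + 4 * ((i : ℕ) : ℤ)) * (1 + 4 * ((t : ℕ) : ℤ)) - 1 then 1 else 0 := by
  unfold MS
  apply coeff_th_one (by omega)
  have : (1 + 4 * ((i : ℕ) : ℤ)) * (1 + 4 * ((t : ℕ) : ℤ)) =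
    1 + 4 * (((i : ℕ) : ℤ) + ((t : ℕ) : ℤ) + 4 * ((i : ℕ) : ℤ) * ((t : ℕ) : ℤ)) := by ring
  omega

theorem det_MS_ne (m : ℕ) : (MS m).det ≠ 0 := by
  classical
  -- divide by X
  have hX : ∀ i t, ∃ g : S, MS m i t = X * g := by
    intro i t
    have : (X : S) ∣ MS m i t := by
      rw [X_dvd_iff, ← coeff_zero_eq_constantCoeff_apply]
      unfold MS
      apply coeff_th_zero (by omega)
      have : (1 + 4 * ((i : ℕ) : ℤ)) * (1 + 4 * ((t : ℕ) : ℤ)) =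
        1 + 4 * (((i : ℕ) : ℤ) + ((t : ℕ) : ℤ) + 4 * ((i : ℕ) : ℤ) * ((t : ℕ) : ℤ)) := by ring
      omega
    exact this
  choose g hg using hX
  have h1 : MS m = (X : S) • (Matrix.of g) := by
    ext1 i t
    rw [hg]
    rfl
  rw [h1, Matrix.det_smul]
  apply mul_ne_zero (pow_ne_zero _ X_ne)
  intro h0
  -- reduce modulo X
  have h2 : (constantCoeff (R := ZMod 2)).mapMatrix (Matrix.of g) =
      Matrix.of fun (i t : Fin (2 ^ m)) => if (2 ^ (m + 2) : ℤ) ∣ (1 + 4 * ((i : ℕ) : ℤ)) * (1 + 4 * ((t : ℕ) : ℤ)) - 1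
        then (1 : ZMod 2) else 0 := by
    ext i t
    rw [RingHom.mapMatrix_apply, Matrix.map_apply, Matrix.of_apply, Matrix.of_apply, ← coeff_MS, hg,
      show (1 : ℕ) = 0 + 1 from rfl, coeff_succ_X_mul, coeff_zero_eq_constantCoeff_apply]
  choose τ hτ using exists_inv m
  have hinj : Function.Injective τ := by
    intro i j hij
    have h3 := hτ i
    have h4 := hτ j
    rw [← hij] at h4
    rw [mul_comm] at h3 h4
    exact inv_unique m (τ i) i j h3 h4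
  let σ : Equiv.Perm (Fin (2 ^ m)) := Equiv.ofBijective τ (Finite.injective_iff_bijective.1 hinj)
  have h3 : (Matrix.of fun (i t : Fin (2 ^ m)) => if (2 ^ (m + 2) : ℤ) ∣ (1 + 4 * ((i : ℕ) : ℤ)) *
      (1 + 4 * ((t : ℕ) : ℤ)) - 1 then (1 : ZMod 2) else 0) = σ.toPEquiv.toMatrix := by
    ext i t
    rw [Matrix.of_apply, PEquiv.toMatrix_apply]
    by_cases h : (2 ^ (m + 2) : ℤ) ∣ (1 + 4 * ((i : ℕ) : ℤ)) * (1 + 4 * ((t : ℕ) : ℤ)) - 1
    · rw [if_pos h, if_pos]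
      rw [Equiv.toPEquiv_apply, Option.mem_some_iff]
      exact inv_unique m i _ _ (hτ i) h
    · rw [if_neg h, if_neg]
      intro h4
      rw [Equiv.toPEquiv_apply, Option.mem_some_iff] at h4
      apply h
      rw [← h4]
      exact hτ i
  have h4 := congrArg (constantCoeff (R := ZMod 2)) h0
  rw [RingHom.map_det, h2, h3, map_zero] at h4
  have h5 : (σ.toPEquiv.toMatrix : Matrix _ _ (ZMod 2)).det = Equiv.Perm.sign σ := by
    have := Matrix.det_permutation (R := ZMod 2) σ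
    exact this
  rw [h5] at h4
  rcases Int.units_eq_one_or (Equiv.Perm.sign σ) with h6 | h6 <;> rw [h6] at h4 <;> simp at h4

end Pool.Agent.J4H80.IG
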