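import Pool.Agent.J4H80.IG.Valence

set_option autoImplicit false

/-!
# The valence inequality
-/

namespace Pool.Agent.J4H80.IG

open PowerSeries Pool.Agent.TH693.PP Pool.Agent.H397R2.PP Pool.Agent.TH693.QQ

/-- the matrix over the field -/
noncomputable def ML (m : ℕ) : Matrix (Fin (2 ^ m)) (Fin (2 ^ m)) L := (MS m).map (algebraMap S L)

theorem det_ML_ne (m : ℕ) : (ML m).det ≠ 0 := by
  unfold ML
  have h : (algebraMap S L) (MS m).det = ((MS m).map (algebraMap S L)).det := by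
    rw [RingHom.map_det]
    rfl
  rw [← h, map_ne_zero_iff _ inj]
  exact det_MS_ne m

theorem ML_apply (m : ℕ) (i t : Fin (2 ^ m)) :
    ML m i t = A (m + 2) (1 + 4 * ((i : ℕ) : ℤ)) ((t : ℕ) : ℤ) := rfl

theorem prod_mem (m : ℕ) {u : ℤ → L} (hu : u ∈ V (m + 2)) :
    ∃ κ : K, io' κ = ∏ t : Fin (2 ^ m), u ((t : ℕ) : ℤ) := by
  classical
  have hl := lev m
  have := hl.fin
  let v : Fin (2 ^ m) → V (m + 2) := fun i => ⟨A (m + 2) (1 + 4 * ((i : ℕ) : ℤ)), hl.mem _⟩
  have hli : LinearIndependent K v := by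
    rw [Fintype.linearIndependent_iff]
    intro g hg
    have h1 : Matrix.vecMul (fun i => io' (g i)) (ML m) = 0 := by
      funext t
      have h2 := congrArg (fun x : V (m + 2) => (x : ℤ → L) ((t : ℕ) : ℤ)) hg
      simp only [Subalgebra.coe_zero, Pi.zero_apply] at h2
      rw [Pi.zero_apply, ← h2]
      have h3 : ((∑ i, g i • v i : V (m + 2)) : ℤ → L) = ∑ i, g i • (v i : ℤ → L) := by
        rw [← Subalgebra.coe_val, map_sum]
        rfl
      rw [h3, Finset.sum_apply]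
      unfold Matrix.vecMul dotProduct
      refine Finset.sum_congr rfl fun i _ => ?_
      rw [Pi.smul_apply, Algebra.smul_def, algKL]
      rfl
    have h4 := Matrix.eq_zero_of_vecMul_eq_zero (det_ML_ne m) h1
    intro i
    have h5 := congrFun h4 i
    rw [Pi.zero_apply, map_eq_zero_iff _ io'_inj] at h5
    exact h5
  have hcard : Fintype.card (Fin (2 ^ m)) = Module.finrank K (V (m + 2)) := by
    apply le_antisymm
    · exact hli.fintype_card_le_finrank
    · rw [Fintype.card_fin]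
      have := hl.rk
      rwa [Nat.add_sub_cancel] at this
  have hne : Nonempty (Fin (2 ^ m)) := ⟨⟨0, by positivity⟩⟩
  let b := basisOfLinearIndependentOfCardEqFinrank hli hcard
  have hb : ∀ i, b i = v i := fun i => by
    simp [b]
  let mm : Matrix (Fin (2 ^ m)) (Fin (2 ^ m)) K := fun i j => b.repr (⟨u, hu⟩ * v i) j
  have hmm : ∀ i, (⟨u, hu⟩ * v i : V (m + 2)) = ∑ j, mm i j • v j := by
    intro i
    rw [← b.sum_repr (⟨u, hu⟩ * v i)]
    refine Finset.sum_congr rfl fun j _ => ?_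
    rw [hb]
  have hmat : ML m * Matrix.diagonal (fun t : Fin (2 ^ m) => u ((t : ℕ) : ℤ)) = (mm.map io') * ML m := by
    ext i t
    rw [Matrix.mul_diagonal, Matrix.mul_apply]
    have h2 : ((⟨u, hu⟩ * v i : V (m + 2)) : ℤ → L) ((t : ℕ) : ℤ) =
      ((∑ j, mm i j • v j : V (m + 2)) : ℤ → L) ((t : ℕ) : ℤ) :=
      congrArg (fun x : V (m + 2) => (x : ℤ → L) ((t : ℕ) : ℤ)) (hmm i)
    have h3 : ((∑ j, mm i j • v j : V (m + 2)) : ℤ → L) = ∑ j, mm i j • (v j : ℤ → L) := by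
      rw [← Subalgebra.coe_val, map_sum]
      rfl
    rw [h3, Finset.sum_apply, Subalgebra.coe_mul, Pi.mul_apply, mul_comm] at h2
    refine Eq.trans ?_ (h2.trans ?_)
    · rfl
    · refine Finset.sum_congr rfl fun j _ => ?_
      rw [Pi.smul_apply, Algebra.smul_def, algKL]
      rfl
  have hdet := congrArg Matrix.det hmat
  rw [Matrix.det_mul, Matrix.det_mul, Matrix.det_diagonal, mul_comm] at hdet
  have hfin := mul_right_cancel₀ (det_ML_ne m) hdet
  refine ⟨mm.det, ?_⟩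
  rw [hfin, RingHom.map_det]
  rfl

/-- the valence inequality -/
theorem valence (m : ℕ) {u : ℤ → L} (hu : u ∈ V (m + 2)) (h0 : u ≠ 0) {w : ℕ}
    (hw : ∀ t, Wt w (u t)) (P : ℤ → S) (hP : ∀ t, u t = algebraMap S L (P t)) (N : ℕ → ℕ)
    (hN : ∀ t < 2 ^ m, (X : S) ^ N t ∣ P ((t : ℕ) : ℤ)) :
    ∑ t ∈ Finset.range (2 ^ m), N t ≤ 2 ^ m * w := by
  obtain ⟨κ, hκ⟩ := prod_mem m hu
  have h1 : Wt (2 ^ m * w) (io' κ) := by
    rw [hκ]
    have := Wt.prod Finset.univ (fun t : Fin (2 ^ m) => u ((t : ℕ) : ℤ)) (fun t _ => hw _)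
    rwa [Finset.card_univ, Fintype.card_fin] at this
  obtain ⟨Q, hQd, hQ⟩ := poly_of_Wt h1
  have h2 : ev Q = algebraMap S L (∏ t ∈ Finset.range (2 ^ m), P ((t : ℕ) : ℤ)) := by
    rw [← hQ, hκ, Finset.prod_range (fun t : ℕ => P ((t : ℕ) : ℤ)), map_prod]
    exact Finset.prod_congr rfl fun t _ => hP _
  have h3 : evS Q = ∏ t ∈ Finset.range (2 ^ m), P ((t : ℕ) : ℤ) := inj h2
  have hQ0 : Q ≠ 0 := by
    rintro rfl
    rw [map_zero] at h3
    have h4 := h3.symm
    rw [Finset.prod_eq_zero_iff] at h4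
    obtain ⟨t, _, ht⟩ := h4
    apply h0
    apply (lev m).van u hu (t : ℤ)
    rw [hP, ht, map_zero]
  have h5 : (X : S) ^ (∑ t ∈ Finset.range (2 ^ m), N t) ∣ evS Q := by
    rw [h3, ← Finset.prod_pow_eq_pow_sum]
    exact Finset.prod_dvd_prod_of_dvd _ _ fun t ht => hN t (Finset.mem_range.1 ht)
  by_contra hlt
  apply not_dvd_evS hQ0
  exact (pow_dvd_pow X (by omega)).trans h5

end Pool.Agent.J4H80.IG
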