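import Pool.Agent.J4H80.IG.Fld

set_option autoImplicit false

/-!
# Elements integral over `F_2[Db]` with bounded pole at infinity
-/

namespace Pool.Agent.J4H80.IG

open PowerSeries Pool.Agent.TH693.PP Pool.Agent.H397R2.PP Pool.Agent.TH693.QQ

section general

variable {R A : Type*} [CommRing R] [CommRing A] (f : R →+* A)

theorem ie_pow {x : A} (hx : f.IsIntegralElem x) (n : ℕ) : f.IsIntegralElem (x ^ n) := by
  induction n with
  | zero => rw [pow_zero]; exact f.isIntegralElem_one
  | succ n ih => rw [pow_succ]; exact RingHom.IsIntegralElem.mul f ih hx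

theorem ie_quad {x x' : A} (hp : f.IsIntegralElem (x + x')) (hq : f.IsIntegralElem (x * x')) :
    f.IsIntegralElem x := by
  let _ := f.toAlgebra
  have hp' : IsIntegral R (x + x') := hp
  have hq' : IsIntegral R (x * x') := hq
  have h1 : IsIntegral (integralClosure R A) x := by
    let p : integralClosure R A := ⟨x + x', hp'⟩
    let q : integralClosure R A := ⟨x * x', hq'⟩
    refine ⟨Polynomial.X ^ 2 + (Polynomial.C (-p) * Polynomial.X + Polynomial.C q), ?_, ?_⟩
    · apply Polynomial.monic_X_pow_add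
      exact (Polynomial.degree_linear_le).trans_lt (by norm_num)
    · rw [Polynomial.eval₂_add, Polynomial.eval₂_add, Polynomial.eval₂_mul,
        Polynomial.eval₂_pow, Polynomial.eval₂_X, Polynomial.eval₂_C, Polynomial.eval₂_C]
      change x ^ 2 + (-(x + x') * x + x * x') = 0
      ring
  have h2 : IsIntegral R x := isIntegral_trans x h1
  exact h2

end general

/-- evaluation of polynomials at `1 / Db` -/
noncomputable def ev' : Polynomial (ZMod 2) →+* L := (Polynomial.aeval (dL⁻¹)).toRingHom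

theorem ev'_X : ev' Polynomial.X = dL⁻¹ := by
  unfold ev'
  exact Polynomial.aeval_X _

/-- integral over `F_2[Db]`, with a pole of order at most `w` at infinity -/
def Wt (w : ℕ) (x : L) : Prop := ev.IsIntegralElem x ∧ ev'.IsIntegralElem (x * dL⁻¹ ^ w)

theorem dL_ne : dL ≠ 0 := by
  have h := ev_inj.ne (a₁ := Polynomial.X) (a₂ := 0) Polynomial.X_ne_zero
  rw [ev_X, map_zero] at h
  exact h

theorem ie_inv : ev'.IsIntegralElem dL⁻¹ := by
  rw [← ev'_X]
  exact ev'.isIntegralElem_map

theorem Wt.add {w : ℕ} {x y : L} (hx : Wt w x) (hy : Wt w y) : Wt w (x + y) :=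
  ⟨RingHom.IsIntegralElem.add _ hx.1 hy.1, by
    rw [add_mul]; exact RingHom.IsIntegralElem.add _ hx.2 hy.2⟩

theorem Wt.mul {w v : ℕ} {x y : L} (hx : Wt w x) (hy : Wt v y) : Wt (w + v) (x * y) :=
  ⟨RingHom.IsIntegralElem.mul _ hx.1 hy.1, by
    rw [pow_add, mul_mul_mul_comm]; exact RingHom.IsIntegralElem.mul _ hx.2 hy.2⟩

theorem Wt.mono {w v : ℕ} {x : L} (hx : Wt w x) (h : w ≤ v) : Wt v x :=
  ⟨hx.1, by
    obtain ⟨d, rfl⟩ := Nat.exists_eq_add_of_le h
    rw [pow_add, ← mul_assoc]
    exact RingHom.IsIntegralElem.mul _ hx.2 (ie_pow _ ie_inv d)⟩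

theorem Wt.zero (w : ℕ) : Wt w 0 :=
  ⟨ev.isIntegralElem_zero, by rw [zero_mul]; exact ev'.isIntegralElem_zero⟩

theorem Wt.one : Wt 0 1 :=
  ⟨ev.isIntegralElem_one, by rw [pow_zero, mul_one]; exact ev'.isIntegralElem_one⟩

theorem Wt.pow {w : ℕ} {x : L} (hx : Wt w x) (n : ℕ) : Wt (n * w) (x ^ n) := by
  induction n with
  | zero => rw [pow_zero, zero_mul]; exact Wt.one
  | succ n ih => rw [pow_succ, Nat.succ_mul]; exact ih.mul hx

theorem Wt.sum {ι : Type*} {w : ℕ} (s : Finset ι) (f : ι → L) (h : ∀ i ∈ s, Wt w (f i)) :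
    Wt w (∑ i ∈ s, f i) := by
  classical
  induction s using Finset.induction_on with
  | empty => rw [Finset.sum_empty]; exact Wt.zero w
  | insert a s ha ih =>
    rw [Finset.sum_insert ha]
    exact (h a (Finset.mem_insert_self a s)).add (ih fun i hi => h i (Finset.mem_insert_of_mem hi))

theorem Wt.prod {ι : Type*} {w : ℕ} (s : Finset ι) (f : ι → L) (h : ∀ i ∈ s, Wt w (f i)) :
    Wt (s.card * w) (∏ i ∈ s, f i) := by
  classical
  induction s using Finset.induction_on with
  | empty => rw [Finset.prod_empty, Finset.card_empty, zero_mul]; exact Wt.one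
  | insert a s ha ih =>
    rw [Finset.prod_insert ha, Finset.card_insert_of_notMem ha, add_mul, one_mul, add_comm]
    exact (h a (Finset.mem_insert_self a s)).mul (ih fun i hi => h i (Finset.mem_insert_of_mem hi))

theorem Wt.dLw : Wt 1 dL :=
  ⟨by rw [← ev_X]; exact ev.isIntegralElem_map, by
    rw [pow_one, mul_inv_cancel₀ dL_ne]; exact ev'.isIntegralElem_one⟩

theorem Wt.quad {w : ℕ} {x x' : L} (hp : Wt w (x + x')) (hq : Wt (2 * w) (x * x')) : Wt w x := by
  refine ⟨ie_quad _ hp.1 hq.1, ie_quad _ (x' := x' * dL⁻¹ ^ w) ?_ ?_⟩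
  · rw [← add_mul]; exact hp.2
  · have h := hq.2
    rw [two_mul, pow_add] at h
    rw [mul_mul_mul_comm]
    exact h

/-- the order of the pole of the theta functions of level `2 ^ n` -/
def en (n : ℕ) : ℕ := (4 ^ (n - 1) - 1) / 3

theorem three_en (n : ℕ) : 3 * en n + 1 = 4 ^ (n - 1) := by
  unfold en
  have h1 : ∀ m : ℕ, 4 ^ m % 3 = 1 := by
    intro m
    induction m with
    | zero => rfl
    | succ m ih => rw [pow_succ]; omega
  have h2 := h1 (n - 1)
  have h3 : 1 ≤ 4 ^ (n - 1) := Nat.one_le_pow _ _ (by norm_num)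
  omega

theorem Wt.th (m : ℕ) (c : ℤ) (hc : c % 2 = 1) : Wt (en (m + 2)) (algebraMap S L (th (2 ^ (m + 2)) c)) := by
  induction m generalizing c with
  | zero =>
    have h1 : Pool.Agent.TH693.QQ.th (2 ^ (0 + 2)) c = Db := D1.four c (Int.odd_iff.2 hc)
    rw [h1]
    have h2 : en (0 + 2) = 1 := by
      have := three_en (0 + 2)
      norm_num at this ⊢
      omega
    rw [h2]
    exact Wt.dLw
  | succ m ih =>
    have h1 := D1.split (m + 2) c
    have h2 := D1.prod (m + 2) c (by omega)
    have e1 := three_en (m + 2)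
    have e2 := three_en (m + 1 + 2)
    have e3 : m + 1 + 2 - 1 = (m + 2 - 1) + 1 := by omega
    rw [e3, pow_succ] at e2
    refine Wt.quad (x' := algebraMap S L (Pool.Agent.TH693.QQ.th (2 ^ (m + 2 + 1)) (c + 2 ^ (m + 2)))) ?_ ?_
    · rw [← map_add, show m + 1 + 2 = m + 2 + 1 by ring, h1]
      exact (ih c hc).mono (by rw [show m + 2 + 1 = m + 1 + 2 by ring]; omega)
    · rw [← map_mul, show m + 1 + 2 = m + 2 + 1 by ring, h2, map_mul, map_pow, map_pow]
      have hc' : (c + 2 ^ (m + 2 - 1)) % 2 = 1 := by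
        rw [show m + 2 - 1 = m + 1 by omega, pow_succ]
        omega
      have h3 := (Wt.dLw.pow (2 ^ (2 * (m + 2) - 1))).mul ((ih _ hc').pow 2)
      refine h3.mono ?_
      have e4 : 2 ^ (2 * (m + 2) - 1) = 2 * 4 ^ (m + 2 - 1) := by
        have : 2 * (m + 2) - 1 = 2 * (m + 2 - 1) + 1 := by omega
        rw [this, pow_succ, pow_mul]
        norm_num
        ring
      rw [e4, show m + 2 + 1 = m + 1 + 2 by ring]
      omega

/-- evaluation at `1 / T` in `F_2(T)` -/
noncomputable def evK' : Polynomial (ZMod 2) →+* K := (Polynomial.aeval (RatFunc.X⁻¹ : K)).toRingHom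

theorem io'_X : io' (RatFunc.X : K) = dL := by
  rw [← RatFunc.algebraMap_X, io'_alg, ev_X]

theorem ext_zmod {A : Type*} [Semiring A] {f g : Polynomial (ZMod 2) →+* A}
    (h : f Polynomial.X = g Polynomial.X) : f = g :=
  Polynomial.ringHom_ext' (RingHom.ext_zmod _ _) h

theorem io'_comp : io'.comp evK' = ev' := by
  apply ext_zmod
  rw [ev'_X, RingHom.comp_apply]
  have : evK' Polynomial.X = (RatFunc.X⁻¹ : K) := by
    unfold evK'
    exact Polynomial.aeval_X _
  rw [this, map_inv₀, io'_X]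

theorem io'_inj : Function.Injective io' := io'.injective

theorem poly_of_Wt {w : ℕ} {κ : K} (h : Wt w (io' κ)) :
    ∃ Q : Polynomial (ZMod 2), Q.natDegree ≤ w ∧ io' κ = ev Q := by
  classical
  have hcomp : io'.comp (algebraMap (Polynomial (ZMod 2)) K) = ev := by
    refine RingHom.ext fun x => ?_
    rw [RingHom.comp_apply, io'_alg]
  have h1 : (algebraMap (Polynomial (ZMod 2)) K).IsIntegralElem κ := by
    refine RingHom.IsIntegralElem.of_map (g := io') io'_inj ?_
    rw [hcomp]
    exact h.1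
  have h1' : IsIntegral (Polynomial (ZMod 2)) κ := h1
  obtain ⟨Q, hQ⟩ := IsIntegrallyClosed.isIntegral_iff.1 h1'
  refine ⟨Q, ?_, by rw [← hQ, io'_alg]⟩
  by_cases hQ0 : Q = 0
  · rw [hQ0, Polynomial.natDegree_zero]; exact Nat.zero_le _
  have h2 : evK'.IsIntegralElem (κ * (RatFunc.X⁻¹ : K) ^ w) := by
    refine RingHom.IsIntegralElem.of_map (g := io') io'_inj ?_
    rw [io'_comp, map_mul, map_pow, map_inv₀, io'_X]
    exact h.2
  set v := RatFunc.inftyValuation (ZMod 2) with hv
  have hvX : v (RatFunc.X : K) = WithZero.exp (1 : ℤ) := RatFunc.inftyValuation.X _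
  have hle : v (RatFunc.X⁻¹ : K) ≤ 1 := by
    rw [map_inv₀, hvX, ← WithZero.exp_neg, ← WithZero.exp_zero, WithZero.exp_le_exp]
    norm_num
  have hint : ∀ q : Polynomial (ZMod 2), evK' q ∈ v.integer := by
    intro q
    induction q using Polynomial.induction_on' with
    | add p q hp hq => rw [map_add]; exact add_mem hp hq
    | monomial n a =>
      have : evK' (Polynomial.monomial n a) = algebraMap (ZMod 2) K a * (RatFunc.X⁻¹ : K) ^ n := by
        unfold evK'
        exact Polynomial.aeval_monomial _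
      rw [this]
      refine mul_mem ?_ (pow_mem (show (RatFunc.X⁻¹ : K) ∈ v.integer from hle) n)
      have ha : ∀ a : ZMod 2, a = 0 ∨ a = 1 := by decide
      have ha := ha a
      rcases ha with rfl | rfl
      · rw [map_zero]; exact zero_mem _
      · rw [map_one]; exact one_mem _
  let g : Polynomial (ZMod 2) →+* v.integer := evK'.codRestrict v.integer hint
  have hg : (algebraMap v.integer K).comp g = evK' := RingHom.ext fun _ => rfl
  have h3 : IsIntegral v.integer (κ * (RatFunc.X⁻¹ : K) ^ w) := by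
    have : (algebraMap v.integer K).IsIntegralElem (κ * (RatFunc.X⁻¹ : K) ^ w) := by
      apply RingHom.IsIntegralElem.of_comp (f := g)
      rw [hg]
      exact h2
    exact this
  have h4 : v (κ * (RatFunc.X⁻¹ : K) ^ w) ≤ 1 :=
    (Valuation.Integers.isIntegral_iff_v_le_one (Valuation.integer.integers v)).1 h3
  rw [map_mul, map_pow, map_inv₀, hvX, ← hQ, hv, RatFunc.inftyValuation_apply,
    RatFunc.inftyValuation.polynomial _ hQ0, ← WithZero.exp_neg, ← WithZero.exp_nsmul,
    ← WithZero.exp_add, ← WithZero.exp_zero, WithZero.exp_le_exp] at h4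
  simp only [smul_neg, nsmul_eq_mul, mul_one] at h4
  omega

end Pool.Agent.J4H80.IG
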